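import Pool.Agent.K3h43.GEN.Fun

set_option autoImplicit false
set_option linter.unusedSimpArgs false

namespace Pool.Agent.K3h43.GEN

open Pool.Agent.K3h43.DSL MvPolynomial

variable {α : R →ₗ[ℚ] ℚ}

theorem s_id (Q : R) : S !![1, 0, 0; 0, 1, 0; 0, 0, 1] Q = Q := by
  rw [show (!![1, 0, 0; 0, 1, 0; 0, 0, 1] : M3) = 1 from by decide, S_one]

theorem gam_t (h : Hex α) (Q : R) : gam α (S mt Q) = gam α Q := by
  have h1 := (hexA h Q).id_gt
  simp only [gam_apply, x1_apply, x2_apply, S_comp, mR, mr, mt, m0, m1, m2, E1, E2, F1, F2, EB,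
    Matrix.mul_fin_three] at h1 ⊢
  norm_num at h1 ⊢
  try simp only [s_id] at h1 ⊢
  linarith

theorem gam_r (h : Hex α) (Q : R) : gam α (S mr Q) = -gam α Q := by
  have h1 := (hexA h Q).id_gr
  simp only [gam_apply, x1_apply, x2_apply, S_comp, mR, mr, mt, m0, m1, m2, E1, E2, F1, F2, EB,
    Matrix.mul_fin_three] at h1 ⊢
  norm_num at h1 ⊢
  try simp only [s_id] at h1 ⊢
  linarith

theorem comm (h : Hex α) (Q : R) : x1 α (S E2 Q) + x2 α Q = x2 α (S E1 Q) + x1 α Q := by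
  have h1 := (hexA h Q).id_comm
  simp only [gam_apply, x1_apply, x2_apply, S_comp, mR, mr, mt, m0, m1, m2, E1, E2, F1, F2, EB,
    Matrix.mul_fin_three] at h1 ⊢
  norm_num at h1 ⊢
  try simp only [s_id] at h1 ⊢
  linarith

theorem r1 (h : Hex α) (Q : R) : x2 α (S mR Q) + gam α Q = x1 α Q + gam α (S E1 Q) := by
  have h1 := (hexA h Q).id_r1
  simp only [gam_apply, x1_apply, x2_apply, S_comp, mR, mr, mt, m0, m1, m2, E1, E2, F1, F2, EB,
    Matrix.mul_fin_three] at h1 ⊢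
  norm_num at h1 ⊢
  try simp only [s_id] at h1 ⊢
  linarith

theorem r2 (h : Hex α) (Q : R) : x1 α (S mR Q) + gam α Q = x2 α Q + gam α (S E2 Q) := by
  have h1 := (hexA h Q).id_r2
  simp only [gam_apply, x1_apply, x2_apply, S_comp, mR, mr, mt, m0, m1, m2, E1, E2, F1, F2, EB,
    Matrix.mul_fin_three] at h1 ⊢
  norm_num at h1 ⊢
  try simp only [s_id] at h1 ⊢
  linarith

theorem b1 (h : Hex α) (Q : R) : x1 α (S (m2 * E2) Q) + x2 α (S m2 Q) = x1 α Q := by
  have h1 := (hexA h Q).id_b1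
  simp only [gam_apply, x1_apply, x2_apply, S_comp, mR, mr, mt, m0, m1, m2, E1, E2, F1, F2, EB,
    Matrix.mul_fin_three] at h1 ⊢
  norm_num at h1 ⊢
  try simp only [s_id] at h1 ⊢
  linarith

theorem b2 (h : Hex α) (Q : R) : x2 α (S (m2 * F2) Q) = -x2 α Q := by
  have h1 := (hexA h Q).id_b2
  simp only [gam_apply, x1_apply, x2_apply, S_comp, mR, mr, mt, m0, m1, m2, E1, E2, F1, F2, EB,
    Matrix.mul_fin_three] at h1 ⊢
  norm_num at h1 ⊢
  try simp only [s_id] at h1 ⊢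
  linarith

theorem t1 (h : Hex α) (Q : R) : x2 α (S (mt * F2) Q) = -x1 α Q := by
  have h1 := (hexA h Q).id_t1
  simp only [gam_apply, x1_apply, x2_apply, S_comp, mR, mr, mt, m0, m1, m2, E1, E2, F1, F2, EB,
    Matrix.mul_fin_three] at h1 ⊢
  norm_num at h1 ⊢
  try simp only [s_id] at h1 ⊢
  linarith

theorem t2 (h : Hex α) (Q : R) : x1 α (S (mt * F1) Q) = -x2 α Q := by
  have h1 := (hexA h Q).id_t2
  simp only [gam_apply, x1_apply, x2_apply, S_comp, mR, mr, mt, m0, m1, m2, E1, E2, F1, F2, EB,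
    Matrix.mul_fin_three] at h1 ⊢
  norm_num at h1 ⊢
  try simp only [s_id] at h1 ⊢
  linarith

theorem qq (h : Hex α) (Q : R) : x2 α (S EB Q) - x2 α Q = x2 α (S (E2 * m0) Q) - x2 α (S m0 Q) := by
  have h1 := (hexA h Q).id_q
  simp only [gam_apply, x1_apply, x2_apply, S_comp, mR, mr, mt, m0, m1, m2, E1, E2, F1, F2, EB,
    Matrix.mul_fin_three] at h1 ⊢
  norm_num at h1 ⊢
  try simp only [s_id] at h1 ⊢
  linarith

end Pool.Agent.K3h43.GEN
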