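import Pool.Agent.K3h43.GEN.Inv

set_option autoImplicit false

namespace Pool.Agent.K3h43.GEN

open Pool.Agent.K3h43.DSL MvPolynomial

variable {α : R →ₗ[ℚ] ℚ}

/-- the difference of `m` and its translate -/
noncomputable def D0 (m : R →ₗ[ℚ] ℚ) : R →ₗ[ℚ] ℚ := m - m ∘ₗ (S m0).toLinearMap

theorem D0_apply (m : R →ₗ[ℚ] ℚ) (Q : R) : D0 m Q = m Q - m (S m0 Q) := rfl

theorem m0_X2 : S m0 (X 2) = X 2 := by
  rw [S_X, Fin.sum_univ_three]
  simp [m0]

theorem m2_X2 : S m2 (X 2) = -X 2 := by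
  rw [S_X, Fin.sum_univ_three]
  simp [m2]

theorem surjB (hS : Surj01) (P : R) : ∃ Q : R, S EB Q - Q = X 2 * P := by
  obtain ⟨Q, hQ⟩ := surj2 hS (S m0 P)
  refine ⟨S m0 Q, ?_⟩
  have h1 : S EB (S m0 Q) = S m0 (S E2 Q) := by
    rw [S_comp, S_comp]
    congr 2
    decide
  have h2 : S m0 (S m0 P) = P := by
    rw [S_comp, show m0 * m0 = 1 from by decide, S_one]
  rw [h1, ← map_sub, hQ, map_mul, m0_X2, h2]

theorem D0_sq (hS : Surj01) (h : Hex α) {m : R →ₗ[ℚ] ℚ} (hm : Mm α m) (P : R) :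
    D0 m (X 2 * (X 2 * P)) = 0 := by
  obtain ⟨Q, hQ⟩ := surj2 hS P
  obtain ⟨U, hU⟩ := surjB hS Q
  have c1 : S EB (S E2 U) = S E2 (S EB U) := by
    rw [S_comp, S_comp]
    congr 2
    decide
  have c2 : S m0 (S E2 (S EB U)) = S E2 (S m0 (S E2 U)) := by
    rw [S_comp, S_comp, S_comp, S_comp]
    congr 2
    decide
  have c3 : S m0 (S EB U) = S E2 (S m0 U) := by
    rw [S_comp, S_comp]
    congr 2
    decide
  have c4 : S m0 (S E2 U) = S (E2 * m0) U := by
    rw [S_comp]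
  have k : S E2 (S EB U - U) - (S EB U - U) = X 2 * (X 2 * P) := by
    rw [hU, map_mul, E2_X2, ← hQ]
    ring
  have a1 := hm.e2 (S EB U - U)
  have a2 := hm.e2 (S m0 (S E2 U) - S m0 U)
  have a3 := qq h U
  rw [← k, D0_apply]
  simp only [map_sub, c2, c3, c4] at a1 a2 a3 ⊢
  linarith

/-- modulo `v₂` -/
theorem m2_mod (P : R) : ∃ P' : R, S m2 P = P + X 2 * P' := by
  induction P using MvPolynomial.induction_on with
  | C a =>
    refine ⟨0, ?_⟩
    have h1 : S m2 (C a : R) = C a := by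
      unfold S
      rw [aeval_C]
      rfl
    rw [h1]
    ring
  | add p q hp hq =>
    obtain ⟨P1, h1⟩ := hp
    obtain ⟨P2, h2⟩ := hq
    exact ⟨P1 + P2, by rw [map_add, h1, h2]; ring⟩
  | mul_X p i hp =>
    obtain ⟨P1, h1⟩ := hp
    have hi : ∃ T : R, S m2 (X i : R) = X i + X 2 * T := by
      rw [S_X, Fin.sum_univ_three]
      fin_cases i
      · exact ⟨0, by simp [m2]⟩
      · exact ⟨1, by simp [m2]⟩
      · exact ⟨-2, by simp [m2]; ring⟩
    obtain ⟨T, hT⟩ := hi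
    refine ⟨P1 * X i + p * T + P1 * X 2 * T, ?_⟩
    rw [map_mul, h1, hT]
    ring

theorem D0_two (hS : Surj01) (h : Hex α) {m : R →ₗ[ℚ] ℚ} (hm : Mm α m) (Q : R) :
    D0 m (S m2 Q) = D0 m Q := by
  have c1 : S m0 (S m2 Q) = S m2 (S m0 Q) := by
    rw [S_comp, S_comp]
    congr 2
    decide
  rw [D0_apply, D0_apply, c1, hm.two hS h, hm.two hS h]

theorem D0_X2 (hS : Surj01) (h : Hex α) {m : R →ₗ[ℚ] ℚ} (hm : Mm α m) (P : R) :
    D0 m (X 2 * P) = 0 := by
  obtain ⟨P', hP⟩ := m2_mod P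
  have h1 := D0_two hS h hm (X 2 * P)
  have h2 := D0_sq hS h hm P'
  rw [map_mul, m2_X2, hP] at h1
  have h3 : (-X 2 * (P + X 2 * P') : R) = -(X 2 * P) - X 2 * (X 2 * P') := by ring
  rw [h3, map_sub, map_neg, h2] at h1
  linarith

theorem Mm.one (hS : Surj01) (h : Hex α) {m : R →ₗ[ℚ] ℚ} (hm : Mm α m) (Q : R) :
    m (S m1 Q) = m Q := by
  have c1 : S m1 Q = S mt (S m2 (S mt Q)) := by
    rw [S_comp, S_comp]
    congr 2
    decide
  rw [c1, hm.tt hS h, hm.two hS h, hm.tt hS h]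

theorem D0_anti (m : R →ₗ[ℚ] ℚ) (Q : R) : D0 m (S m0 Q) = -D0 m Q := by
  rw [D0_apply, D0_apply, S_comp, show m0 * m0 = 1 from by decide, S_one]
  ring

theorem D0_ab (hS : Surj01) (h : Hex α) {m : R →ₗ[ℚ] ℚ} (hm : Mm α m) (P : R) :
    D0 m ((X 0 + X 1 + X 2) * ((X 1 + X 2) * P)) = 0 := by
  have e1 : ∀ P : R, D0 m (S m1 ((X 1 + X 2) * P)) = 0 := by
    intro P
    have h1 : S m1 (X 1 + X 2 : R) = X 2 := by
      rw [map_add, S_X, S_X, Fin.sum_univ_three, Fin.sum_univ_three]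
      simp [m1]
    rw [map_mul, h1]
    exact D0_X2 hS h hm _
  have e2 : ∀ Q : R, D0 m (S m1 (S m0 Q)) = D0 m (S m1 Q) - D0 m Q := by
    intro Q
    have c1 : S m0 (S m1 (S m0 Q)) = S m1 (S m0 (S m1 Q)) := by
      rw [S_comp, S_comp, S_comp, S_comp]
      congr 2
      decide
    rw [D0_apply, D0_apply, D0_apply, c1, hm.one hS h, hm.one hS h, hm.one hS h]
    ring
  have e3 : S m0 (X 0 + X 1 + X 2 : R) = X 1 + X 2 := by
    rw [map_add, map_add, S_X, S_X, S_X, Fin.sum_univ_three, Fin.sum_univ_three,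
      Fin.sum_univ_three]
    simp [m0]
  have h1 := e2 ((X 0 + X 1 + X 2) * ((X 1 + X 2) * P))
  rw [map_mul, e3, e1] at h1
  have h2 := e1 ((X 0 + X 1 + X 2) * P)
  rw [show (X 1 + X 2 : R) * ((X 0 + X 1 + X 2) * P) = (X 0 + X 1 + X 2) * ((X 1 + X 2) * P) by ring]
    at h2
  rw [h2] at h1
  linarith

/-- evaluation at `(1, 0, 0)` -/
noncomputable def del : R →ₐ[ℚ] ℚ := aeval ![1, 0, 0]

theorem del_X0 : del (X 0) = 1 := by simp [del]
theorem del_X1 : del (X 1) = 0 := by simp [del]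
theorem del_X2 : del (X 2) = 0 := by simp [del]

/-- the change of coordinates -/
noncomputable def ka : R →ₐ[ℚ] R := sb (X 0 + X 1 + X 2) (X 1 + X 2) (X 2)

theorem ka_surj (Q : R) : ka (sb (X 0 - X 1) (X 1 - X 2) (X 2) Q) = Q := by
  have h : ka.comp (sb (X 0 - X 1) (X 1 - X 2) (X 2)) = AlgHom.id ℚ R := by
    apply algHom_ext
    intro i
    fin_cases i <;> simp [ka, sb]
  exact DFunLike.congr_fun h Q

theorem hom_sb {d : ℕ} (a b c : R) (ha : a.IsHomogeneous 1) (hb : b.IsHomogeneous 1)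
    (hc : c.IsHomogeneous 1) {Q : R} (hQ : Q.IsHomogeneous d) : (sb a b c Q).IsHomogeneous d := by
  have h := hQ.aeval (g := ![a, b, c]) (n := 1) (by
    intro i
    fin_cases i
    · exact ha
    · exact hb
    · exact hc)
  rw [one_mul] at h
  exact h

theorem D0_eq (hS : Surj01) (h : Hex α) {m : R →ₗ[ℚ] ℚ} (hm : Mm α m) {d : ℕ} (hd : 1 ≤ d)
    {Q : R} (hQ : Q.IsHomogeneous d) :
    D0 m Q = D0 m ((X 0 + X 1 + X 2) ^ d) * (del Q - del (S m0 Q)) := by
  have X0h : (X 0 : R).IsHomogeneous 1 := isHomogeneous_X _ _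
  have X1h : (X 1 : R).IsHomogeneous 1 := isHomogeneous_X _ _
  have X2h : (X 2 : R).IsHomogeneous 1 := isHomogeneous_X _ _
  set T : R := sb (X 0 - X 1) (X 1 - X 2) (X 2) Q with hTdef
  have hT : T.IsHomogeneous d := hom_sb _ _ _ (X0h.sub X1h) (X1h.sub X2h) X2h hQ
  have hQT : Q = ka T := (ka_surj Q).symm
  rw [hQT]
  -- monomials
  have hmon : ∀ s : Fin 3 →₀ ℕ, s.degree = d → ∀ c : ℚ,
      D0 m (ka (monomial s c)) = D0 m ((X 0 + X 1 + X 2) ^ d) *
        (del (ka (monomial s c)) - del (S m0 (ka (monomial s c)))) := by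
    intro s hs c
    have hs' : s 0 + s 1 + s 2 = d := by
      rw [← hs, Finsupp.degree_eq_sum, Fin.sum_univ_three]
    have e1 : ka (monomial s c) = C c * ((X 0 + X 1 + X 2) ^ s 0 * ((X 1 + X 2) ^ s 1 *
        X 2 ^ s 2)) := by
      unfold ka sb
      rw [aeval_monomial, Finsupp.prod_fintype _ _ (by intro i; simp), Fin.prod_univ_three]
      simp [mul_assoc]
    have s0 : S m0 (X 0 + X 1 + X 2 : R) = X 1 + X 2 := by
      rw [map_add, map_add, S_X, S_X, S_X, Fin.sum_univ_three, Fin.sum_univ_three,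
        Fin.sum_univ_three]
      simp [m0]
    have s1 : S m0 (X 1 + X 2 : R) = X 0 + X 1 + X 2 := by
      rw [map_add, S_X, S_X, Fin.sum_univ_three, Fin.sum_univ_three]
      simp [m0]
    have hC : S m0 (C c : R) = C c := by
      unfold S
      rw [aeval_C]
      rfl
    have hC' : del (C c : R) = c := by
      unfold del
      rw [aeval_C]
      rfl
    have e2 : del (ka (monomial s c)) = c * (0 ^ s 1 * 0 ^ s 2) := by
      rw [e1]
      simp only [map_mul, map_pow, map_add, del_X0, del_X1, del_X2, hC']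
      simp
    have e3 : del (S m0 (ka (monomial s c))) = c * (0 ^ s 0 * 0 ^ s 2) := by
      rw [e1]
      simp only [map_mul, map_pow, s0, s1, m0_X2, hC, map_add, del_X0, del_X1, del_X2, hC']
      simp
    have e4 : D0 m (ka (monomial s c)) = c * D0 m ((X 0 + X 1 + X 2) ^ s 0 * ((X 1 + X 2) ^ s 1 *
        X 2 ^ s 2)) := by
      rw [e1, ← smul_eq_C_mul, map_smul, smul_eq_mul]
    rw [e2, e3, e4]
    rcases Nat.eq_zero_or_pos (s 2) with h2 | h2
    · rcases Nat.eq_zero_or_pos (s 1) with h1 | h1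
      · have h0 : s 0 = d := by omega
        rw [h0, h1, h2]
        have hd0 : (0 : ℚ) ^ d = 0 := zero_pow (by omega)
        simp [hd0, mul_comm]
      · rcases Nat.eq_zero_or_pos (s 0) with h0 | h0
        · have h1' : s 1 = d := by omega
          rw [h0, h1', h2]
          have hd0 : (0 : ℚ) ^ d = 0 := zero_pow (by omega)
          have k1 := D0_anti m ((X 0 + X 1 + X 2) ^ d)
          rw [map_pow, s0] at k1
          simp only [pow_zero, one_mul, mul_one, k1, hd0]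
          ring
        · obtain ⟨a, ha⟩ := Nat.exists_eq_add_of_le' h0
          obtain ⟨b, hb⟩ := Nat.exists_eq_add_of_le' h1
          rw [ha, hb, h2]
          have k1 := D0_ab hS h hm ((X 0 + X 1 + X 2) ^ a * (X 1 + X 2) ^ b)
          have k2 : ((X 0 + X 1 + X 2) ^ (a + 1) * ((X 1 + X 2) ^ (b + 1) * X 2 ^ 0) : R) =
              (X 0 + X 1 + X 2) * ((X 1 + X 2) * ((X 0 + X 1 + X 2) ^ a * (X 1 + X 2) ^ b)) := by
            ring
          rw [k2, k1]
          simp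
    · obtain ⟨a, ha⟩ := Nat.exists_eq_add_of_le' h2
      rw [ha]
      have k1 := D0_X2 hS h hm ((X 0 + X 1 + X 2) ^ s 0 * (X 1 + X 2) ^ s 1 * X 2 ^ a)
      have k2 : ((X 0 + X 1 + X 2) ^ s 0 * ((X 1 + X 2) ^ s 1 * X 2 ^ (a + 1)) : R) =
          X 2 * ((X 0 + X 1 + X 2) ^ s 0 * (X 1 + X 2) ^ s 1 * X 2 ^ a) := by
        ring
      rw [k2, k1]
      simp
  rw [T.as_sum]
  simp only [map_sum, Finset.mul_sum, ← Finset.sum_sub_distrib]
  refine Finset.sum_congr rfl fun s hs => hmon s ?_ _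
  rw [mem_support_iff] at hs
  have h1 := hT hs
  have h2 : s.degree = Finsupp.weight (1 : Fin 3 → ℕ) s :=
    DFunLike.congr_fun (Finsupp.degree_eq_weight_one (σ := Fin 3) (R := ℕ)) s
  rw [h2]
  exact h1

/-- **the decomposition** -/
theorem t_Dec (hS : Surj01) (hK : Ker01) (hD1 : Div01) (hD2 : Div12) : Dec := by
  intro d hd _ α h
  obtain ⟨m, hm1, hm2⟩ := exists_m hS hK hD1 hD2 h
  have hm : Mm α m := ⟨hm1, hm2⟩
  set A : ℚ := D0 m ((X 0 + X 1 + X 2) ^ d) with hA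
  refine ⟨m - A • del.toLinearMap, fun Q hQ => ?_⟩
  have a0 := D0_eq hS h hm hd hQ
  rw [← hA, D0_apply] at a0
  have a1 := hm.one hS h Q
  have a2 := hm.two hS h Q
  have a3 := hm.rho hS h Q
  rw [gam_apply] at a3
  have hdel : ∀ M : M3, M 0 0 = 1 → M 1 0 = 0 → M 2 0 = 0 → del (S M Q) = del Q := by
    intro M k0 k1 k2
    have : del.comp (S M) = del := by
      apply algHom_ext
      intro i
      rw [AlgHom.comp_apply, S_X, Fin.sum_univ_three]
      simp only [map_add, map_mul, map_intCast, del_X0, del_X1, del_X2]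
      fin_cases i
      · simp [k0, del_X0]
      · simp [k1, del_X1]
      · simp [k2, del_X2]
    exact DFunLike.congr_fun this Q
  rw [s_0, s_1, s_2, s_R]
  simp only [LinearMap.sub_apply, LinearMap.smul_apply, AlgHom.toLinearMap_apply, smul_eq_mul]
  refine ⟨?_, ?_, ?_, ?_⟩
  · linarith
  · rw [a1, hdel m1 (by decide) (by decide) (by decide)]
  · rw [a2, hdel m2 (by decide) (by decide) (by decide)]
  · rw [a3, hdel mR (by decide) (by decide) (by decide)]
    ring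

end Pool.Agent.K3h43.GEN
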