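import Pool.Agent.K3h43.GEN.Coc

set_option autoImplicit false

namespace Pool.Agent.K3h43.GEN

open Pool.Agent.K3h43.DSL MvPolynomial

variable {α : R →ₗ[ℚ] ℚ}

theorem sR_sR (Q : R) : S mR (S mR Q) = Q := by
  rw [S_comp, show mR * mR = 1 from by decide, S_one]

theorem E2_conj (Q : R) : S E2 Q = S mR (S E1 (S mR Q)) := by
  rw [S_comp, S_comp]
  congr 2
  decide

theorem E2_sub (Q : R) : S E2 Q - Q = S mR (S E1 (S mR Q) - S mR Q) := by
  rw [map_sub, sR_sR, ← E2_conj]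

theorem S_X1_R : S mR (X 1) = X 2 := by
  rw [S_X, Fin.sum_univ_three]
  simp [mR]

theorem E2_X1 : S E2 (X 1) = X 1 := by
  rw [S_X, Fin.sum_univ_three]
  simp [E2]

theorem E2_X2 : S E2 (X 2) = X 2 := by
  rw [S_X, Fin.sum_univ_three]
  simp [E2]

theorem surj1 (hS : Surj01) (P : R) : ∃ Q : R, S E1 Q - Q = X 1 * P := by
  obtain ⟨Q, hQ⟩ := hS P
  rw [s_E1] at hQ
  exact ⟨Q, hQ⟩

theorem surj2 (hS : Surj01) (P : R) : ∃ Q : R, S E2 Q - Q = X 2 * P := by
  obtain ⟨Q, hQ⟩ := surj1 hS (S mR P)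
  refine ⟨S mR Q, ?_⟩
  rw [E2_sub, sR_sR, hQ, map_mul, sR_sR, S_X1_R]

theorem div1 (hD : Div01) (Q : R) : ∃ P : R, S E1 Q - Q = X 1 * P := by
  obtain ⟨P, hP⟩ := hD Q
  rw [s_E1] at hP
  exact ⟨P, hP⟩

theorem div2 (hD : Div01) (Q : R) : ∃ P : R, S E2 Q - Q = X 2 * P := by
  obtain ⟨P, hP⟩ := div1 hD (S mR Q)
  refine ⟨S mR P, ?_⟩
  rw [E2_sub, hP, map_mul, S_X1_R]

def mN : M3 := !![0, 0, 0; 0, 1, 0; 0, 0, 1]

theorem s_N : sb 0 (X 1) (X 2) = S mN := sb_S _ _ _ _ (by simp [mN]) (by simp [mN]) (by simp [mN])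

theorem ker1 (hK : Ker01) {Q : R} (h : S E1 Q = Q) : S mN Q = Q := by
  have := hK Q
  rw [s_E1, s_N] at this
  exact this h

theorem ker2 (hK : Ker01) {Q : R} (h : S E2 Q = Q) : S mN Q = Q := by
  have h1 : S E1 (S mR Q) = S mR Q := by
    have h2 := congrArg (S mR) h
    rw [E2_conj, sR_sR] at h2
    exact h2
  have h2 := congrArg (S mR) (ker1 hK h1)
  rw [sR_sR, S_comp, S_comp, show mR * (mN * mR) = mN from by decide] at h2
  exact h2

theorem gam_zero (h : Hex α) {Q : R} (hQ : S mr Q = Q) : gam α Q = 0 := by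
  have h1 := gam_r h Q
  rw [hQ] at h1
  linarith

theorem kill1 (h : Hex α) {Q : R} (hQ : S mN Q = Q) : x1 α Q = 0 := by
  rw [x1_apply, ← hQ, S_comp, gam_zero h, gam_zero h, add_zero]
  · rw [S_comp]
    congr 2
    decide
  · rw [S_comp]
    congr 2
    decide

theorem kill2 (h : Hex α) {Q : R} (hQ : S mN Q = Q) : x2 α Q = 0 := by
  rw [x2_apply, ← hQ, S_comp, S_comp, gam_zero h, gam_zero h, add_zero]
  · rw [S_comp]
    congr 2
    decide
  · rw [S_comp]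
    congr 2
    decide

theorem exists_m (hS : Surj01) (hK : Ker01) (hD1 : Div01) (hD2 : Div12) (h : Hex α) :
    ∃ m : R →ₗ[ℚ] ℚ, (∀ Q, m (S E1 Q - Q) = x1 α Q) ∧ ∀ Q, m (S E2 Q - Q) = x2 α Q := by
  let T : R × R →ₗ[ℚ] R := ((S E1).toLinearMap - LinearMap.id).coprod
    ((S E2).toLinearMap - LinearMap.id)
  let χ : R × R →ₗ[ℚ] ℚ := (x1 α).coprod (x2 α)
  have hT : ∀ p, T p = (S E1 p.1 - p.1) + (S E2 p.2 - p.2) := fun p => by
    simp [T, LinearMap.coprod_apply]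
  have hχ : ∀ p, χ p = x1 α p.1 + x2 α p.2 := fun p => by
    simp [χ, LinearMap.coprod_apply]
  have hker : χ ∈ (LinearMap.ker T).dualAnnihilator := by
    rw [Submodule.mem_dualAnnihilator]
    rintro ⟨Q1, Q2⟩ hQ
    rw [LinearMap.mem_ker, hT] at hQ
    rw [hχ]
    simp only at hQ ⊢
    obtain ⟨P1, hP1⟩ := div1 hD1 Q1
    obtain ⟨P2, hP2⟩ := div2 hD1 Q2
    have h1 : X 1 * P1 = X 2 * (-P2) := by
      rw [← hP1, mul_neg, ← hP2]
      linear_combination hQ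
    obtain ⟨T', hT'⟩ := hD2 P1 (-P2) h1
    obtain ⟨Q', hQ'⟩ := surj2 hS T'
    obtain ⟨U, hU⟩ := surj1 hS Q'
    have hcomm : ∀ Q : R, S E1 (S E2 Q) = S E2 (S E1 Q) := by
      intro Q
      rw [S_comp, S_comp]
      congr 2
      decide
    have k0 : S E2 (S E1 U - U) - (S E1 U - U) = X 1 * (X 2 * T') := by
      rw [hU, map_mul, E2_X1, ← hQ']
      ring
    have k1 : S E1 (S E2 U - U) - (S E2 U - U) = X 1 * (X 2 * T') := by
      rw [← k0, map_sub, map_sub, hcomm]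
      ring
    have e1 : S E1 (Q1 - (S E2 U - U)) = Q1 - (S E2 U - U) := by
      rw [map_sub]
      rw [hT'] at hP1
      linear_combination hP1 - k1
    have e2 : S E2 (Q2 + (S E1 U - U)) = Q2 + (S E1 U - U) := by
      rw [map_add]
      rw [hT'] at hP1
      linear_combination hQ - hP1 + k0
    have f1 := kill1 h (ker1 hK e1)
    have f2 := kill2 h (ker2 hK e2)
    have f3 := comm h U
    simp only [map_sub, map_add] at f1 f2
    linarith
  rw [← LinearMap.range_dualMap_eq_dualAnnihilator_ker] at hker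
  obtain ⟨m, hm⟩ := hker
  refine ⟨m, fun Q => ?_, fun Q => ?_⟩
  · have h1 := LinearMap.congr_fun hm (Q, 0)
    rw [LinearMap.dualMap_apply, hT, hχ] at h1
    simpa using h1
  · have h1 := LinearMap.congr_fun hm (0, Q)
    rw [LinearMap.dualMap_apply, hT, hχ] at h1
    simpa using h1

end Pool.Agent.K3h43.GEN
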