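import Pool.Agent.K3h43.GEN.MapF
import Pool.Agent.Y759.DS.Gm2

set_option autoImplicit false

namespace Pool.Agent.K3h43.GEN

open Pool.Agent.H777R4.DM Pool.Agent.R241.DL Pool.Agent.K3h43.DSL MvPolynomial

theorem v3span : V3Span :=
  t_V3Span (t_Dec K3h36.GEN.GOne.t_Surj01 K3h36.GEN.GOne.t_Ker01 K3h36.GEN.GOne.t_Div01
    K3h36.GEN.GOne.t_Div12)

/-- the family of elements of depth one -/
structure Fam (L : Submodule ℚ A) (σ : ℕ → A) : Prop where
  dm : ∀ ψ ∈ L, IsDM ψ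
  br : ∀ ψ ∈ L, ∀ φ ∈ L, ihara ψ φ ∈ L
  mem : ∀ k, Odd k → 3 ≤ k → σ k ∈ L
  len : ∀ k, Odd k → 3 ≤ k → LenHom (σ k) k
  co : ∀ k, Odd k → 3 ≤ k → co (σ k) (List.replicate (k - 1) 0 ++ [1]) ≠ 0

variable {L : Submodule ℚ A} {σ : ℕ → A}

theorem Fam.sym (h : Fam L σ) {p : ℕ} (hp : Even p) (h2 : 2 ≤ p) :
    (∀ u, Pool.Agent.H777R4.DM.co (σ (p + 1)) u ≠ 0 → 1 ≤ u.count 0) ∧
    ∃ c : ℚ, c ≠ 0 ∧ ∀ z0 z1 : ℚ, ev [z0, z1] (σ (p + 1)) = c * (z0 - z1) ^ p :=
  K3h91.GEN.t_SymOne (σ (p + 1)) p hp h2 (h.dm _ (h.mem _ hp.add_one (by omega)))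
    (h.len _ hp.add_one (by omega)) (by
      have := h.co (p + 1) hp.add_one (by omega)
      simpa using this)

/-- the symbol of a double bracket -/
theorem Fam.sym2 (h : Fam L σ) {p q : ℕ} (hp : Even p) (h2 : 2 ≤ p) (hq : Even q) (k2 : 2 ≤ q) :
    ∃ c : ℚ, c ≠ 0 ∧ ∀ z0 z1 z2 : ℚ, ev [z0, z1, z2] (ihara (σ (p + 1)) (σ (q + 1))) =
      c * eval ![z0 - z1, z1 - z2] (bsym p q) := by
  obtain ⟨a1, c, hc, hσ⟩ := h.sym hp h2
  obtain ⟨b1, e, he, hτ⟩ := h.sym hq k2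
  refine ⟨c * e, mul_ne_zero hc he, fun z0 z1 z2 => ?_⟩
  rw [K3h93.GEN.t_Ih11 _ _ a1 b1, hσ, hσ, hσ, hτ, hτ, hτ]
  unfold bsym
  simp only [map_add, map_sub, map_mul, map_pow, eval_X, Matrix.cons_val_zero, Matrix.cons_val_one]
  ring

theorem eval_em (v : Fin 3 → ℚ) (a b : R) (g : B2) :
    eval v (em a b g) = eval ![eval v a, eval v b] g := by
  unfold em
  rw [← coe_aeval_eq_eval, ← coe_aeval_eq_eval]
  show (aeval v) (aeval ![a, b] g) = aeval _ g
  rw [← AlgHom.comp_apply]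
  congr 1
  apply algHom_ext
  intro i
  fin_cases i <;> simp

/-- the symbol of a triple bracket -/
theorem Fam.sym3 (h : Fam L σ) {k p q : ℕ} (hk : Even k) (k2 : 2 ≤ k) (hp : Even p) (p2 : 2 ≤ p)
    (hq : Even q) (q2 : 2 ≤ q) {N : ℕ} (hN : k + 1 + (p + 1 + (q + 1)) = N) :
    ∃ c : ℚ, c ≠ 0 ∧ FF N (ihara (σ (k + 1)) (ihara (σ (p + 1)) (σ (q + 1)))) =
      c • tsym k (bsym p q) := by
  obtain ⟨a1, c, hc, hσ⟩ := h.sym hk k2
  obtain ⟨b1, -⟩ := h.sym hp p2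
  obtain ⟨c1, -⟩ := h.sym hq q2
  obtain ⟨e, he, hτ⟩ := h.sym2 hp p2 hq q2
  have hcnt := K3h93.GEN.t_IhCount (σ (p + 1)) (σ (q + 1)) 1 1 b1 c1
  have hlen : LenHom (ihara (σ (k + 1)) (ihara (σ (p + 1)) (σ (q + 1)))) N := by
    rw [← hN]
    exact K3h93.GEN.t_IhLen _ _ _ _ (h.len _ hk.add_one (by omega))
      (K3h93.GEN.t_IhLen _ _ _ _ (h.len _ hp.add_one (by omega)) (h.len _ hq.add_one (by omega)))
  refine ⟨c * e, mul_ne_zero hc he, ?_⟩
  apply MvPolynomial.funext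
  intro v
  rw [eval_FF N _ K3h66.DSL.t_Exp4 hlen v, K3h93.GEN.t_Ih12 _ _ a1 hcnt, hσ, hσ, hσ, hσ, hτ, hτ,
    hτ, hτ, smul_eval]
  unfold tsym
  simp only [map_add, map_sub, map_mul, map_pow, eval_em, eval_X]
  rw [show (0 : ℚ) - -v 0 = v 0 by ring, show (0 : ℚ) - (-v 0 - v 1) = v 0 + v 1 by ring,
    show -v 0 - v 1 - (-v 0 - v 1 - v 2) = v 2 by ring, show -v 0 - (-v 0 - v 1) = v 1 by ring,
    show -v 0 - (-v 0 - v 1 - v 2) = v 1 + v 2 by ring,
    show (0 : ℚ) - (-v 0 - v 1 - v 2) = v 0 + v 1 + v 2 by ring]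
  ring

/-- the set of the triple brackets of weight `N` -/
def T3 (σ : ℕ → A) (N : ℕ) : Set A := {ψ | ∃ a b c : ℕ, Odd a ∧ Odd b ∧ Odd c ∧ 3 ≤ a ∧ 3 ≤ b ∧
  3 ≤ c ∧ a + b + c = N ∧ ψ = ihara (σ a) (ihara (σ b) (σ c))}

/-- the set of the double brackets of weight `N` -/
def T2 (σ : ℕ → A) (N : ℕ) : Set A := {ψ | ∃ a b : ℕ, Odd a ∧ Odd b ∧ 3 ≤ a ∧ 3 ≤ b ∧
  a + b = N ∧ ψ = ihara (σ a) (σ b)}

/-- the linear map `g ↦ tsym k g` -/
noncomputable def tL (k : ℕ) : B2 →ₗ[ℚ] R where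
  toFun := tsym k
  map_add' p q := by
    unfold tsym
    simp only [map_add]
    ring
  map_smul' c p := by
    unfold tsym
    simp only [map_smul, RingHom.id_apply, ← smul_sub, mul_smul_comm, ← smul_add]

theorem V_le (h : Fam L σ) {N : ℕ} (hN : Odd N) (h5 : 5 ≤ N) :
    V (N - 3) ≤ (Submodule.span ℚ (T3 σ N)).map (FF N) := by
  have hd : Even (N - 3) := Nat.Odd.sub_odd hN (by decide)
  intro q hq
  refine (Submodule.span_le (p := (Submodule.span ℚ (T3 σ N)).map (FF N))).2 ?_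
    (v3span (N - 3) hd (by omega) q hq)
  rintro t ⟨k, m, g, hg, hk, hm, k2, hkm, rfl⟩
  rcases Nat.eq_zero_or_pos m with h0 | h0
  · subst h0
    -- `g` is a constant
    have h1 : tsym k g = 0 := by
      have e : ∀ a b : R, em a b g = em 0 0 g := by
        intro a b
        have hg0 := hg.1
        have := (totalDegree_eq_zero_iff_eq_C (p := g)).1 (Nat.le_zero.1 hg0.totalDegree_le)
        rw [this]
        unfold em
        rw [aeval_C, aeval_C]
      unfold tsym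
      rw [e (X 0 + X 1) (X 2), e (X 1) (X 2), e (X 0) (X 1 + X 2), e (X 0) (X 1)]
      ring
    rw [h1]
    exact Submodule.zero_mem _
  · have h1 := K3h36.GEN.GTwo.t_V2Span m hm h0 g hg
    have h2 : tL k g ∈ (Submodule.span ℚ {b : B2 | ∃ p q : ℕ, Even p ∧ Even q ∧ 2 ≤ p ∧ 2 ≤ q ∧
        p + q = m ∧ b = bsym p q}).map (tL k) := Submodule.mem_map_of_mem h1
    rw [Submodule.map_span] at h2
    refine (Submodule.span_le (p := (Submodule.span ℚ (T3 σ N)).map (FF N))).2 ?_ h2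
    rintro _ ⟨b, ⟨p, q, hp, hq, p2, q2, hpq, rfl⟩, rfl⟩
    obtain ⟨c, hc, hF⟩ := h.sym3 (N := N) hk k2 hp p2 hq q2 (by omega)
    refine ⟨c⁻¹ • ihara (σ (k + 1)) (ihara (σ (p + 1)) (σ (q + 1))), ?_, ?_⟩
    · refine Submodule.smul_mem _ _ (Submodule.subset_span ⟨k + 1, p + 1, q + 1, hk.add_one,
        hp.add_one, hq.add_one, by omega, by omega, by omega, by omega, rfl⟩)
    · rw [map_smul, hF, smul_smul, inv_mul_cancel₀ hc, one_smul]
      rfl

theorem T3_prop (h : Fam L σ) {N : ℕ} {φ : A} (hφ : φ ∈ Submodule.span ℚ (T3 σ N)) :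
    φ ∈ L ∧ LenHom φ N ∧ ∀ u, Pool.Agent.H777R4.DM.co φ u ≠ 0 → 3 ≤ u.count 0 := by
  induction hφ using Submodule.span_induction with
  | mem φ hφ =>
    obtain ⟨a, b, c, ha, hb, hc, a3, b3, c3, habc, rfl⟩ := hφ
    obtain ⟨k, rfl⟩ := Nat.exists_eq_add_of_le' (show 1 ≤ a by omega)
    obtain ⟨p, rfl⟩ := Nat.exists_eq_add_of_le' (show 1 ≤ b by omega)
    obtain ⟨q, rfl⟩ := Nat.exists_eq_add_of_le' (show 1 ≤ c by omega)
    have hk : Even k := by
      rcases Nat.even_or_odd k with h | h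
      · exact h
      · exact absurd h.add_one (Nat.not_even_iff_odd.2 ha)
    have hp : Even p := by
      rcases Nat.even_or_odd p with h | h
      · exact h
      · exact absurd h.add_one (Nat.not_even_iff_odd.2 hb)
    have hq : Even q := by
      rcases Nat.even_or_odd q with h | h
      · exact h
      · exact absurd h.add_one (Nat.not_even_iff_odd.2 hc)
    obtain ⟨a1, -⟩ := h.sym hk (by omega)
    obtain ⟨b1, -⟩ := h.sym hp (by omega)
    obtain ⟨c1, -⟩ := h.sym hq (by omega)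
    refine ⟨h.br _ (h.mem _ ha a3) _ (h.br _ (h.mem _ hb b3) _ (h.mem _ hc c3)), ?_, ?_⟩
    · rw [← habc, add_assoc]
      exact K3h93.GEN.t_IhLen _ _ _ _ (h.len _ ha a3)
        (K3h93.GEN.t_IhLen _ _ _ _ (h.len _ hb b3) (h.len _ hc c3))
    · exact K3h93.GEN.t_IhCount _ _ 1 2 a1 (K3h93.GEN.t_IhCount _ _ 1 1 b1 c1)
  | zero => exact ⟨L.zero_mem, fun u hu => absurd (co_zero u) hu, fun u hu => absurd (co_zero u) hu⟩
  | add a b _ _ iha ihb =>
    refine ⟨L.add_mem iha.1 ihb.1, fun u hu => ?_, fun u hu => ?_⟩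
    · rw [co_add] at hu
      by_cases h1 : Pool.Agent.H777R4.DM.co a u = 0
      · refine ihb.2.1 u fun h' => hu ?_
        rw [h1, h', add_zero]
      · exact iha.2.1 u h1
    · rw [co_add] at hu
      by_cases h1 : Pool.Agent.H777R4.DM.co a u = 0
      · refine ihb.2.2 u fun h' => hu ?_
        rw [h1, h', add_zero]
      · exact iha.2.2 u h1
  | smul c a _ iha =>
    refine ⟨L.smul_mem c iha.1, fun u hu => iha.2.1 u fun h' => hu ?_,
      fun u hu => iha.2.2 u fun h' => hu ?_⟩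
    · rw [co_smul, h', mul_zero]
    · rw [co_smul, h', mul_zero]

/-- **odd weight**, elements with at least three letters `x₀` in each word -/
theorem odd_core (h : Fam L σ) {N : ℕ} (hN : Odd N) {ψ : A} (hdm : IsDM ψ) (hlen : LenHom ψ N)
    (hm : ∀ u, Pool.Agent.H777R4.DM.co ψ u ≠ 0 → 3 ≤ u.count 0) :
    ∃ φ ∈ Submodule.span ℚ (T3 σ N), ∀ u, Pool.Agent.H777R4.DM.co (ψ - φ) u ≠ 0 → 5 ≤ u.count 0 := by
  rcases Nat.lt_or_ge N 5 with h5 | h5
  · -- no words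
    have hz : ∀ u, Pool.Agent.H777R4.DM.co ψ u = 0 := by
      intro u
      by_contra hne
      have h1 := hlen u hne
      have h2 := hm u hne
      have h3 := (taskSmall_proof taskTwoB Pool.Agent.H352.DSH.taskTwoC ψ hdm u hne).2
      have h4 : u.count 0 + u.count 1 = u.length := by
        have : ∀ u : List (Fin 2), u.count 0 + u.count 1 = u.length := by
          intro u
          induction u with
          | nil => rfl
          | cons a u ih =>
            rw [List.count_cons, List.count_cons, List.length_cons]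
            have ha : a = 0 ∨ a = 1 := by omega
            rcases ha with rfl | rfl
            · simp
              omega
            · simp
              omega
        exact this u
      obtain ⟨r, hr⟩ := hN
      omega
    refine ⟨0, Submodule.zero_mem _, fun u hu => ?_⟩
    rw [sub_zero] at hu
    exact absurd (hz u) hu
  · obtain ⟨hF1, -⟩ := mapF (t_Layer3 K3h8.DSL.t_LieStr K3h66.DSL.t_Exp4) K3h66.DSL.t_Exp4 hN
      (by omega) ψ hdm hlen hm
    obtain ⟨φ, hφ, hFφ⟩ := V_le h hN h5 hF1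
    obtain ⟨p1, p2, p3⟩ := T3_prop h hφ
    have hd : IsDM (ψ - φ) := by
      have := isDM_sub (h.dm φ p1) hdm 1
      rwa [one_smul] at this
    have hl : LenHom (ψ - φ) N := by
      intro u hu
      by_cases h1 : Pool.Agent.H777R4.DM.co ψ u = 0
      · refine p2 u fun h' => hu ?_
        rw [co_sub, h1, h', sub_zero]
      · exact hlen u h1
    have hc : ∀ u, Pool.Agent.H777R4.DM.co (ψ - φ) u ≠ 0 → 3 ≤ u.count 0 := by
      intro u hu
      by_cases h1 : Pool.Agent.H777R4.DM.co ψ u = 0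
      · refine p3 u fun h' => hu ?_
        rw [co_sub, h1, h', sub_zero]
      · exact hm u h1
    have h4 := (mapF (t_Layer3 K3h8.DSL.t_LieStr K3h66.DSL.t_Exp4) K3h66.DSL.t_Exp4 hN
      (by omega) (ψ - φ) hd hl hc).2 (by rw [map_sub, hFφ, sub_self])
    exact ⟨φ, hφ, all.2.2 (ψ - φ) N hN hd hl h4⟩

/-- **even weight** -/
theorem even_core (h : Fam L σ) {N : ℕ} (hN : Even N) {ψ : A} (hdm : IsDM ψ) (hlen : LenHom ψ N) :
    ∃ φ ∈ Submodule.span ℚ (T2 σ N), ∀ u, Pool.Agent.H777R4.DM.co (ψ - φ) u ≠ 0 → 4 ≤ u.count 0 := by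
  have hle : Submodule.span ℚ (T2 σ N) ≤ L := by
    rw [Submodule.span_le]
    rintro _ ⟨a, b, ha, hb, a3, b3, -, rfl⟩
    exact h.br _ (h.mem _ ha a3) _ (h.mem _ hb b3)
  obtain ⟨φ, h1, -, -, h4⟩ := Y759.DS.even_sum (Submodule.span ℚ (T2 σ N))
    (fun φ hφ => h.dm _ (hle hφ)) hN (by
      intro p hp p2 hp2
      have hq : Even (N - 2 - p) := by
        obtain ⟨k, hk⟩ := hN
        obtain ⟨l, hl⟩ := hp
        exact ⟨k - 1 - l, by omega⟩
      obtain ⟨c, hc, hs⟩ := h.sym2 hp p2 hq (by omega)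
      have hl : LenHom (ihara (σ (p + 1)) (σ (N - 2 - p + 1))) N := by
        have := K3h93.GEN.t_IhLen _ _ _ _ (h.len _ hp.add_one (by omega))
          (h.len _ hq.add_one (by omega))
        rwa [show p + 1 + (N - 2 - p + 1) = N by omega] at this
      refine ⟨ihara (σ (p + 1)) (σ (N - 2 - p + 1)), Submodule.subset_span ⟨p + 1, N - 2 - p + 1,
        hp.add_one, hq.add_one, by omega, by omega, by omega, rfl⟩, hl, -c, neg_ne_zero.2 hc, ?_⟩
      intro i j hj hij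
      refine K3h91.GEN.t_EvenCoeff _ p (N - 2 - p) c hp hq ?_ hs i j hj (by omega)
      rwa [show p + (N - 2 - p) + 2 = N by omega]) hdm hlen
  exact ⟨φ, h1, h4⟩

end Pool.Agent.K3h43.GEN
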