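import Pool.Agent.K3h43.GEN.Ids

set_option autoImplicit false

namespace Pool.Agent.K3h43.GEN

open Pool.Agent.K3h43.DSL MvPolynomial

def mR : M3 := !![1, 0, 0; 0, 0, 1; 0, 1, 0]
def mr : M3 := !![-1, -1, -1; 0, 1, 0; 0, 0, 1]
def m0 : M3 := !![-1, 0, 0; 1, 1, 0; 0, 0, 1]
def m1 : M3 := !![1, 1, 0; 0, -1, 0; 0, 1, 1]
def m2 : M3 := !![1, 0, 0; 0, 1, 1; 0, 0, -1]
def mt : M3 := !![1, 1, 1; 0, 0, -1; 0, -1, 0]
def E1 : M3 := !![1, 1, 0; 0, 1, 0; 0, 0, 1]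
def E2 : M3 := !![1, 0, 1; 0, 1, 0; 0, 0, 1]
def F1 : M3 := !![1, -1, 0; 0, 1, 0; 0, 0, 1]
def F2 : M3 := !![1, 0, -1; 0, 1, 0; 0, 0, 1]
/-- the conjugate of `E2` by `m0` -/
def EB : M3 := !![1, 0, -1; 0, 1, 1; 0, 0, 1]

theorem s_R : sb (X 0) (X 2) (X 1) = S mR := sb_S _ _ _ _ (by simp [mR]) (by simp [mR]) (by simp [mR])
theorem s_0 : sb (-X 0) (X 0 + X 1) (X 2) = S m0 :=
  sb_S _ _ _ _ (by simp [m0]) (by simp [m0]) (by simp [m0])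
theorem s_1 : sb (X 0 + X 1) (-X 1) (X 1 + X 2) = S m1 :=
  sb_S _ _ _ _ (by simp [m1]) (by simp [m1]) (by simp [m1])
theorem s_2 : sb (X 0) (X 1 + X 2) (-X 2) = S m2 :=
  sb_S _ _ _ _ (by simp [m2]) (by simp [m2]) (by simp [m2])
theorem s_E1 : sb (X 0 + X 1) (X 1) (X 2) = S E1 :=
  sb_S _ _ _ _ (by simp [E1]) (by simp [E1]) (by simp [E1])

/-- `α` on words -/
theorem hexA {α : R →ₗ[ℚ] ℚ} (h : Hex α) (Q : R) : HexA (fun W => α (S W Q)) := by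
  have hn : ∀ Q, α (S !![-1, 0, 0; 0, -1, 0; 0, 0, -1] Q) = α Q := by
    intro Q
    rw [← h.neg Q, sb_S (-X 0) (-X 1) (-X 2) !![-1, 0, 0; 0, -1, 0; 0, 0, -1] (by simp) (by simp)
      (by simp)]
  have hc : ∀ Q, α (S !![0, 1, 0; 0, 0, 1; -1, -1, -1] Q) = α Q := by
    intro Q
    rw [← h.cyc Q, sb_S (X 1) (X 2) (-(X 0 + X 1 + X 2)) !![0, 1, 0; 0, 0, 1; -1, -1, -1]
      (by simp) (by simp) (by simp; ring)]
  have hs : ∀ Q, α (S !![0, 0, -1; 0, -1, 0; -1, 0, 0] Q) = α Q := by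
    intro Q
    rw [← h.rev Q, sb_S (-X 2) (-X 1) (-X 0) !![0, 0, -1; 0, -1, 0; -1, 0, 0] (by simp) (by simp)
      (by simp)]
  refine ⟨fun W => ?_, fun W => ?_, fun W => ?_, fun W => ?_⟩
  · show α (S _ Q) = α (S _ Q)
    rw [← S_comp, hc]
  · show α (S _ Q) = α (S _ Q)
    rw [← S_comp, hs]
  · show α (S _ Q) = α (S _ Q)
    rw [← S_comp, hn]
  · have h1 := h.hex (S W Q)
    rw [sb_S (X 0) (X 2) (X 1) !![1, 0, 0; 0, 0, 1; 0, 1, 0] (by simp) (by simp) (by simp),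
      sb_S (X 0) (X 1 + X 2) (-X 2) !![1, 0, 0; 0, 1, 1; 0, 0, -1] (by simp) (by simp) (by simp),
      sb_S (X 0) (-X 2) (X 1 + X 2) !![1, 0, 0; 0, 0, -1; 0, 1, 1] (by simp) (by simp) (by simp),
      sb_S (X 0) (-X 1 - X 2) (X 1) !![1, 0, 0; 0, -1, -1; 0, 1, 0] (by simp) (by simp; ring)
        (by simp),
      sb_S (X 0) (X 1) (-X 1 - X 2) !![1, 0, 0; 0, 1, 0; 0, -1, -1] (by simp) (by simp)
        (by simp; ring),
      sb_S (X 0) (-X 1) (-X 2) !![1, 0, 0; 0, -1, 0; 0, 0, -1] (by simp) (by simp) (by simp),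
      sb_S (X 0) (-X 2) (-X 1) !![1, 0, 0; 0, 0, -1; 0, -1, 0] (by simp) (by simp) (by simp),
      sb_S (X 0) (-X 1 - X 2) (X 2) !![1, 0, 0; 0, -1, -1; 0, 0, 1] (by simp) (by simp; ring)
        (by simp),
      sb_S (X 0) (X 2) (-X 1 - X 2) !![1, 0, 0; 0, 0, 1; 0, -1, -1] (by simp) (by simp)
        (by simp; ring),
      sb_S (X 0) (X 1 + X 2) (-X 1) !![1, 0, 0; 0, 1, 1; 0, -1, 0] (by simp) (by simp) (by simp),
      sb_S (X 0) (-X 1) (X 1 + X 2) !![1, 0, 0; 0, -1, 0; 0, 1, 1] (by simp) (by simp) (by simp)]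
      at h1
    simp only [S_comp] at h1
    have h2 : S (W * !![1, 0, 0; 0, 1, 0; 0, 0, 1]) Q = S W Q := by
      rw [show (!![1, 0, 0; 0, 1, 0; 0, 0, 1] : M3) = 1 from by decide, mul_one]
    simp only [h2]
    linarith

/-- `γ` -/
noncomputable def gam (α : R →ₗ[ℚ] ℚ) : R →ₗ[ℚ] ℚ := α ∘ₗ (S mR).toLinearMap - α

theorem gam_apply (α : R →ₗ[ℚ] ℚ) (Q : R) : gam α Q = α (S mR Q) - α Q := rfl

/-- the value of the cocycle at `E1` -/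
noncomputable def x1 (α : R →ₗ[ℚ] ℚ) : R →ₗ[ℚ] ℚ :=
  gam α + gam α ∘ₗ (S (mr * m1)).toLinearMap

/-- the value of the cocycle at `E2` -/
noncomputable def x2 (α : R →ₗ[ℚ] ℚ) : R →ₗ[ℚ] ℚ :=
  gam α ∘ₗ (S m2).toLinearMap + gam α ∘ₗ (S (m2 * mr * m2)).toLinearMap

theorem x1_apply (α : R →ₗ[ℚ] ℚ) (Q : R) : x1 α Q = gam α Q + gam α (S (mr * m1) Q) := rfl
theorem x2_apply (α : R →ₗ[ℚ] ℚ) (Q : R) : x2 α Q = gam α (S m2 Q) + gam α (S (m2 * mr * m2) Q) :=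
  rfl

end Pool.Agent.K3h43.GEN
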