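import Pool.Agent.K3h43.GEN.SM

/-! Identities between words (generated). -/

set_option autoImplicit false

namespace Pool.Agent.K3h43.GEN

/-- a function on matrices with the dihedral invariance and the hexagon relation -/
structure HexA (a : M3 → ℚ) : Prop where
  c : ∀ W : M3, a (W * !![0, 1, 0; 0, 0, 1; -1, -1, -1]) = a W
  s : ∀ W : M3, a (W * !![0, 0, -1; 0, -1, 0; -1, 0, 0]) = a W
  n : ∀ W : M3, a (W * !![-1, 0, 0; 0, -1, 0; 0, 0, -1]) = a W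
  hex : ∀ W : M3, -a (W * !![1, 0, 0; 0, 1, 1; 0, 0, -1]) + a (W * !![1, 0, 0; 0, 1, 1; 0, -1, 0]) + a (W * !![1, 0, 0; 0, 1, 0; 0, 0, 1]) - a (W * !![1, 0, 0; 0, 1, 0; 0, -1, -1]) - a (W * !![1, 0, 0; 0, 0, 1; 0, 1, 0]) + a (W * !![1, 0, 0; 0, 0, 1; 0, -1, -1]) + a (W * !![1, 0, 0; 0, 0, -1; 0, 1, 1]) - a (W * !![1, 0, 0; 0, 0, -1; 0, -1, 0]) - a (W * !![1, 0, 0; 0, -1, 0; 0, 1, 1]) + a (W * !![1, 0, 0; 0, -1, 0; 0, 0, -1]) + a (W * !![1, 0, 0; 0, -1, -1; 0, 1, 0]) - a (W * !![1, 0, 0; 0, -1, -1; 0, 0, 1]) = 0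


variable {a : M3 → ℚ}

theorem HexA.d0 (_h : HexA a) (W : M3) : a (W * !![1, 0, 0; 0, 1, 0; 0, 0, 1]) = a W := by
  rw [show (!![1, 0, 0; 0, 1, 0; 0, 0, 1] : M3) = 1 from by decide, mul_one]

theorem HexA.d1 (h : HexA a) (W : M3) : a (W * !![0, 1, 0; 0, 0, 1; -1, -1, -1]) = a W := h.c W

theorem HexA.d2 (h : HexA a) (W : M3) : a (W * !![-1, 0, 0; 0, -1, 0; 0, 0, -1]) = a W := h.n W

theorem HexA.d3 (h : HexA a) (W : M3) : a (W * !![0, 0, -1; 0, -1, 0; -1, 0, 0]) = a W := h.s W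

theorem HexA.d4 (h : HexA a) (W : M3) : a (W * !![0, 0, 1; -1, -1, -1; 1, 0, 0]) = a W := by
  rw [show (!![0, 0, 1; -1, -1, -1; 1, 0, 0] : M3) = !![0, 1, 0; 0, 0, 1; -1, -1, -1] * !![0, 1, 0; 0, 0, 1; -1, -1, -1] from by decide, ← mul_assoc, h.c, h.c]

theorem HexA.d5 (h : HexA a) (W : M3) : a (W * !![0, -1, 0; 0, 0, -1; 1, 1, 1]) = a W := by
  rw [show (!![0, -1, 0; 0, 0, -1; 1, 1, 1] : M3) = !![0, 1, 0; 0, 0, 1; -1, -1, -1] * !![-1, 0, 0; 0, -1, 0; 0, 0, -1] from by decide, ← mul_assoc, h.n, h.c]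

theorem HexA.d6 (h : HexA a) (W : M3) : a (W * !![0, -1, 0; -1, 0, 0; 1, 1, 1]) = a W := by
  rw [show (!![0, -1, 0; -1, 0, 0; 1, 1, 1] : M3) = !![0, 1, 0; 0, 0, 1; -1, -1, -1] * !![0, 0, -1; 0, -1, 0; -1, 0, 0] from by decide, ← mul_assoc, h.s, h.c]

theorem HexA.d7 (h : HexA a) (W : M3) : a (W * !![1, 1, 1; 0, 0, -1; 0, -1, 0]) = a W := by
  rw [show (!![1, 1, 1; 0, 0, -1; 0, -1, 0] : M3) = !![0, 0, -1; 0, -1, 0; -1, 0, 0] * !![0, 1, 0; 0, 0, 1; -1, -1, -1] from by decide, ← mul_assoc, h.c, h.s]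

theorem HexA.d8 (h : HexA a) (W : M3) : a (W * !![0, 0, 1; 0, 1, 0; 1, 0, 0]) = a W := by
  rw [show (!![0, 0, 1; 0, 1, 0; 1, 0, 0] : M3) = !![0, 0, -1; 0, -1, 0; -1, 0, 0] * !![-1, 0, 0; 0, -1, 0; 0, 0, -1] from by decide, ← mul_assoc, h.n, h.s]

theorem HexA.d9 (h : HexA a) (W : M3) : a (W * !![-1, -1, -1; 1, 0, 0; 0, 1, 0]) = a W := by
  rw [show (!![-1, -1, -1; 1, 0, 0; 0, 1, 0] : M3) = !![0, 1, 0; 0, 0, 1; -1, -1, -1] * !![0, 1, 0; 0, 0, 1; -1, -1, -1] * !![0, 1, 0; 0, 0, 1; -1, -1, -1] from by decide, ← mul_assoc, ← mul_assoc, h.c, h.c, h.c]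

theorem HexA.d10 (h : HexA a) (W : M3) : a (W * !![0, 0, -1; 1, 1, 1; -1, 0, 0]) = a W := by
  rw [show (!![0, 0, -1; 1, 1, 1; -1, 0, 0] : M3) = !![0, 1, 0; 0, 0, 1; -1, -1, -1] * !![0, 1, 0; 0, 0, 1; -1, -1, -1] * !![-1, 0, 0; 0, -1, 0; 0, 0, -1] from by decide, ← mul_assoc, ← mul_assoc, h.n, h.c, h.c]

theorem HexA.d11 (h : HexA a) (W : M3) : a (W * !![-1, 0, 0; 1, 1, 1; 0, 0, -1]) = a W := by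
  rw [show (!![-1, 0, 0; 1, 1, 1; 0, 0, -1] : M3) = !![0, 1, 0; 0, 0, 1; -1, -1, -1] * !![0, 1, 0; 0, 0, 1; -1, -1, -1] * !![0, 0, -1; 0, -1, 0; -1, 0, 0] from by decide, ← mul_assoc, ← mul_assoc, h.s, h.c, h.c]

theorem HexA.d12 (h : HexA a) (W : M3) : a (W * !![0, 1, 0; 1, 0, 0; -1, -1, -1]) = a W := by
  rw [show (!![0, 1, 0; 1, 0, 0; -1, -1, -1] : M3) = !![0, 1, 0; 0, 0, 1; -1, -1, -1] * !![0, 0, -1; 0, -1, 0; -1, 0, 0] * !![-1, 0, 0; 0, -1, 0; 0, 0, -1] from by decide, ← mul_assoc, ← mul_assoc, h.n, h.s, h.c]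

theorem HexA.d13 (h : HexA a) (W : M3) : a (W * !![-1, -1, -1; 0, 0, 1; 0, 1, 0]) = a W := by
  rw [show (!![-1, -1, -1; 0, 0, 1; 0, 1, 0] : M3) = !![0, 0, -1; 0, -1, 0; -1, 0, 0] * !![0, 1, 0; 0, 0, 1; -1, -1, -1] * !![-1, 0, 0; 0, -1, 0; 0, 0, -1] from by decide, ← mul_assoc, ← mul_assoc, h.n, h.c, h.s]

theorem HexA.d14 (h : HexA a) (W : M3) : a (W * !![1, 1, 1; -1, 0, 0; 0, -1, 0]) = a W := by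
  rw [show (!![1, 1, 1; -1, 0, 0; 0, -1, 0] : M3) = !![0, 1, 0; 0, 0, 1; -1, -1, -1] * !![0, 1, 0; 0, 0, 1; -1, -1, -1] * !![0, 1, 0; 0, 0, 1; -1, -1, -1] * !![-1, 0, 0; 0, -1, 0; 0, 0, -1] from by decide, ← mul_assoc, ← mul_assoc, ← mul_assoc, h.n, h.c, h.c, h.c]

theorem HexA.d15 (h : HexA a) (W : M3) : a (W * !![1, 0, 0; -1, -1, -1; 0, 0, 1]) = a W := by
  rw [show (!![1, 0, 0; -1, -1, -1; 0, 0, 1] : M3) = !![0, 1, 0; 0, 0, 1; -1, -1, -1] * !![0, 1, 0; 0, 0, 1; -1, -1, -1] * !![0, 0, -1; 0, -1, 0; -1, 0, 0] * !![-1, 0, 0; 0, -1, 0; 0, 0, -1] from by decide, ← mul_assoc, ← mul_assoc, ← mul_assoc, h.n, h.s, h.c, h.c]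

theorem HexA.id_gt (h : HexA a) : a !![1, 1, 1; 0, -1, 0; 0, 0, -1] - a !![1, 1, 1; 0, 0, -1; 0, -1, 0] - a !![1, 0, 0; 0, 0, 1; 0, 1, 0] + a !![1, 0, 0; 0, 1, 0; 0, 0, 1] = 0 := by
  have e1 : a !![-1, -1, -1; 0, 1, 0; 0, 0, 1] = a !![1, 1, 1; 0, -1, 0; 0, 0, -1] := by
    have h0 := h.d2 !![1, 1, 1; 0, -1, 0; 0, 0, -1]
    rwa [show (!![1, 1, 1; 0, -1, 0; 0, 0, -1] * !![-1, 0, 0; 0, -1, 0; 0, 0, -1] : M3) = !![-1, -1, -1; 0, 1, 0; 0, 0, 1] from by decide] at h0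
  have e2 : a !![-1, -1, -1; 0, 0, 1; 0, 1, 0] = a !![1, 1, 1; 0, 0, -1; 0, -1, 0] := by
    have h0 := h.d2 !![1, 1, 1; 0, 0, -1; 0, -1, 0]
    rwa [show (!![1, 1, 1; 0, 0, -1; 0, -1, 0] * !![-1, 0, 0; 0, -1, 0; 0, 0, -1] : M3) = !![-1, -1, -1; 0, 0, 1; 0, 1, 0] from by decide] at h0
  have e3 : a !![-1, -1, -1; 0, 1, 0; 0, 0, 1] = a !![1, 0, 0; 0, 0, 1; 0, 1, 0] := by
    have h0 := h.d13 !![1, 0, 0; 0, 0, 1; 0, 1, 0]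
    rwa [show (!![1, 0, 0; 0, 0, 1; 0, 1, 0] * !![-1, -1, -1; 0, 0, 1; 0, 1, 0] : M3) = !![-1, -1, -1; 0, 1, 0; 0, 0, 1] from by decide] at h0
  have e4 : a !![-1, -1, -1; 0, 0, 1; 0, 1, 0] = a !![1, 0, 0; 0, 1, 0; 0, 0, 1] := by
    have h0 := h.d13 !![1, 0, 0; 0, 1, 0; 0, 0, 1]
    rwa [show (!![1, 0, 0; 0, 1, 0; 0, 0, 1] * !![-1, -1, -1; 0, 0, 1; 0, 1, 0] : M3) = !![-1, -1, -1; 0, 0, 1; 0, 1, 0] from by decide] at h0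
  linear_combination - (1 : ℚ) * e1 - (-1 : ℚ) * e2 - (-1 : ℚ) * e3 - (1 : ℚ) * e4

theorem HexA.id_gr (h : HexA a) : a !![-1, -1, -1; 0, 0, 1; 0, 1, 0] - a !![-1, -1, -1; 0, 1, 0; 0, 0, 1] + a !![1, 0, 0; 0, 0, 1; 0, 1, 0] - a !![1, 0, 0; 0, 1, 0; 0, 0, 1] = 0 := by
  have e1 : a !![-1, -1, -1; 0, 1, 0; 0, 0, 1] = a !![1, 0, 0; 0, 0, 1; 0, 1, 0] := by
    have h0 := h.d13 !![1, 0, 0; 0, 0, 1; 0, 1, 0]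
    rwa [show (!![1, 0, 0; 0, 0, 1; 0, 1, 0] * !![-1, -1, -1; 0, 0, 1; 0, 1, 0] : M3) = !![-1, -1, -1; 0, 1, 0; 0, 0, 1] from by decide] at h0
  have e2 : a !![-1, -1, -1; 0, 0, 1; 0, 1, 0] = a !![1, 0, 0; 0, 1, 0; 0, 0, 1] := by
    have h0 := h.d13 !![1, 0, 0; 0, 1, 0; 0, 0, 1]
    rwa [show (!![1, 0, 0; 0, 1, 0; 0, 0, 1] * !![-1, -1, -1; 0, 0, 1; 0, 1, 0] : M3) = !![-1, -1, -1; 0, 0, 1; 0, 1, 0] from by decide] at h0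
  linear_combination - (1 : ℚ) * e1 - (-1 : ℚ) * e2

theorem HexA.id_comm (h : HexA a) : a !![1, 1, 0; 0, 0, 1; 0, 1, 0] - a !![1, 0, 1; 0, 1, 0; 0, 0, 1] + a !![-1, 0, 0; 0, 0, -1; 0, 1, 1] - a !![-1, 0, 0; 0, -1, 0; 0, 1, 1] + a !![1, 0, 0; 0, 1, 1; 0, -1, 0] - a !![1, 0, 0; 0, 1, 1; 0, 0, -1] + a !![-1, 0, -1; 0, 0, 1; 0, 1, 0] - a !![-1, -1, 0; 0, 1, 0; 0, 0, 1] - a !![1, 1, 1; 0, 1, 1; 0, -1, 0] + a !![1, 1, 1; 0, 1, 1; 0, 0, -1] - a !![-1, 0, 0; 0, 0, 1; 0, 1, 0] + a !![-1, 0, 0; 0, 1, 0; 0, 0, 1] - a !![1, 0, 0; 0, 0, 1; 0, 1, 0] + a !![1, 0, 0; 0, 1, 0; 0, 0, 1] - a !![-1, -1, -1; 0, 0, -1; 0, 1, 1] + a !![-1, -1, -1; 0, -1, 0; 0, 1, 1] = 0 := by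
  have e1 : a !![-1, -1, 0; 0, 0, -1; 0, -1, 0] = a !![1, 1, 0; 0, 0, 1; 0, 1, 0] := by
    have h0 := h.d2 !![1, 1, 0; 0, 0, 1; 0, 1, 0]
    rwa [show (!![1, 1, 0; 0, 0, 1; 0, 1, 0] * !![-1, 0, 0; 0, -1, 0; 0, 0, -1] : M3) = !![-1, -1, 0; 0, 0, -1; 0, -1, 0] from by decide] at h0
  have e2 : a !![-1, 0, -1; 0, -1, 0; -1, 0, 0] = a !![1, 0, 1; 0, 1, 0; 0, 0, 1] := by
    have h0 := h.d3 !![1, 0, 1; 0, 1, 0; 0, 0, 1]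
    rwa [show (!![1, 0, 1; 0, 1, 0; 0, 0, 1] * !![0, 0, -1; 0, -1, 0; -1, 0, 0] : M3) = !![-1, 0, -1; 0, -1, 0; -1, 0, 0] from by decide] at h0
  have e3 : a !![-1, -1, -1; 0, 1, 0; -1, -1, 0] = a !![-1, 0, 0; 0, 0, -1; 0, 1, 1] := by
    have h0 := h.d14 !![-1, 0, 0; 0, 0, -1; 0, 1, 1]
    rwa [show (!![-1, 0, 0; 0, 0, -1; 0, 1, 1] * !![1, 1, 1; -1, 0, 0; 0, -1, 0] : M3) = !![-1, -1, -1; 0, 1, 0; -1, -1, 0] from by decide] at h0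
  have e4 : a !![-1, -1, -1; 0, 0, 1; 0, -1, -1] = a !![-1, 0, 0; 0, -1, 0; 0, 1, 1] := by
    have h0 := h.d7 !![-1, 0, 0; 0, -1, 0; 0, 1, 1]
    rwa [show (!![-1, 0, 0; 0, -1, 0; 0, 1, 1] * !![1, 1, 1; 0, 0, -1; 0, -1, 0] : M3) = !![-1, -1, -1; 0, 0, 1; 0, -1, -1] from by decide] at h0
  have e5 : a !![-1, -1, -1; 0, 1, 1; 0, 0, -1] = a !![1, 0, 0; 0, 1, 1; 0, -1, 0] := by
    have h0 := h.d13 !![1, 0, 0; 0, 1, 1; 0, -1, 0]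
    rwa [show (!![1, 0, 0; 0, 1, 1; 0, -1, 0] * !![-1, -1, -1; 0, 0, 1; 0, 1, 0] : M3) = !![-1, -1, -1; 0, 1, 1; 0, 0, -1] from by decide] at h0
  have e6 : a !![-1, -1, -1; 0, 1, 1; 0, -1, 0] = a !![1, 0, 0; 0, 1, 1; 0, 0, -1] := by
    have h0 := h.d13 !![1, 0, 0; 0, 1, 1; 0, 0, -1]
    rwa [show (!![1, 0, 0; 0, 1, 1; 0, 0, -1] * !![-1, -1, -1; 0, 0, 1; 0, 1, 0] : M3) = !![-1, -1, -1; 0, 1, 1; 0, -1, 0] from by decide] at h0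
  have e7 : a !![-1, 0, -1; 0, -1, 0; -1, 0, 0] = a !![-1, 0, -1; 0, 0, 1; 0, 1, 0] := by
    have h0 := h.d14 !![-1, 0, -1; 0, 0, 1; 0, 1, 0]
    rwa [show (!![-1, 0, -1; 0, 0, 1; 0, 1, 0] * !![1, 1, 1; -1, 0, 0; 0, -1, 0] : M3) = !![-1, 0, -1; 0, -1, 0; -1, 0, 0] from by decide] at h0
  have e8 : a !![-1, -1, 0; 0, 0, -1; 0, -1, 0] = a !![-1, -1, 0; 0, 1, 0; 0, 0, 1] := by
    have h0 := h.d7 !![-1, -1, 0; 0, 1, 0; 0, 0, 1]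
    rwa [show (!![-1, -1, 0; 0, 1, 0; 0, 0, 1] * !![1, 1, 1; 0, 0, -1; 0, -1, 0] : M3) = !![-1, -1, 0; 0, 0, -1; 0, -1, 0] from by decide] at h0
  have e9 : a !![-1, -1, -1; -1, -1, 0; 0, 1, 0] = a !![1, 1, 1; 0, 1, 1; 0, -1, 0] := by
    have h0 := h.d3 !![1, 1, 1; 0, 1, 1; 0, -1, 0]
    rwa [show (!![1, 1, 1; 0, 1, 1; 0, -1, 0] * !![0, 0, -1; 0, -1, 0; -1, 0, 0] : M3) = !![-1, -1, -1; -1, -1, 0; 0, 1, 0] from by decide] at h0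
  have e10 : a !![-1, -1, -1; -1, -1, 0; 1, 0, 0] = a !![1, 1, 1; 0, 1, 1; 0, 0, -1] := by
    have h0 := h.d3 !![1, 1, 1; 0, 1, 1; 0, 0, -1]
    rwa [show (!![1, 1, 1; 0, 1, 1; 0, 0, -1] * !![0, 0, -1; 0, -1, 0; -1, 0, 0] : M3) = !![-1, -1, -1; -1, -1, 0; 1, 0, 0] from by decide] at h0
  have e11 : a !![-1, -1, -1; 0, -1, 0; -1, 0, 0] = a !![-1, 0, 0; 0, 0, 1; 0, 1, 0] := by
    have h0 := h.d14 !![-1, 0, 0; 0, 0, 1; 0, 1, 0]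
    rwa [show (!![-1, 0, 0; 0, 0, 1; 0, 1, 0] * !![1, 1, 1; -1, 0, 0; 0, -1, 0] : M3) = !![-1, -1, -1; 0, -1, 0; -1, 0, 0] from by decide] at h0
  have e12 : a !![-1, -1, -1; -1, 0, 0; 0, -1, 0] = a !![-1, 0, 0; 0, 1, 0; 0, 0, 1] := by
    have h0 := h.d14 !![-1, 0, 0; 0, 1, 0; 0, 0, 1]
    rwa [show (!![-1, 0, 0; 0, 1, 0; 0, 0, 1] * !![1, 1, 1; -1, 0, 0; 0, -1, 0] : M3) = !![-1, -1, -1; -1, 0, 0; 0, -1, 0] from by decide] at h0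
  have e13 : a !![-1, -1, -1; 0, 1, 0; 0, 0, 1] = a !![1, 0, 0; 0, 0, 1; 0, 1, 0] := by
    have h0 := h.d13 !![1, 0, 0; 0, 0, 1; 0, 1, 0]
    rwa [show (!![1, 0, 0; 0, 0, 1; 0, 1, 0] * !![-1, -1, -1; 0, 0, 1; 0, 1, 0] : M3) = !![-1, -1, -1; 0, 1, 0; 0, 0, 1] from by decide] at h0
  have e14 : a !![-1, -1, -1; 0, 0, 1; 0, 1, 0] = a !![1, 0, 0; 0, 1, 0; 0, 0, 1] := by
    have h0 := h.d13 !![1, 0, 0; 0, 1, 0; 0, 0, 1]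
    rwa [show (!![1, 0, 0; 0, 1, 0; 0, 0, 1] * !![-1, -1, -1; 0, 0, 1; 0, 1, 0] : M3) = !![-1, -1, -1; 0, 0, 1; 0, 1, 0] from by decide] at h0
  have e15 : a !![-1, -1, -1; -1, 0, 0; 1, 1, 0] = a !![-1, -1, -1; 0, 0, -1; 0, 1, 1] := by
    have h0 := h.d8 !![-1, -1, -1; 0, 0, -1; 0, 1, 1]
    rwa [show (!![-1, -1, -1; 0, 0, -1; 0, 1, 1] * !![0, 0, 1; 0, 1, 0; 1, 0, 0] : M3) = !![-1, -1, -1; -1, 0, 0; 1, 1, 0] from by decide] at h0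
  have hh := h.hex !![1, 0, 0; 0, -1, -1; 0, 0, 1]
  rw [show (!![1, 0, 0; 0, -1, -1; 0, 0, 1] * !![1, 0, 0; 0, 1, 1; 0, 0, -1] : M3) = !![1, 0, 0; 0, -1, 0; 0, 0, -1] from by decide,
    show (!![1, 0, 0; 0, -1, -1; 0, 0, 1] * !![1, 0, 0; 0, 1, 1; 0, -1, 0] : M3) = !![1, 0, 0; 0, 0, -1; 0, -1, 0] from by decide,
    show (!![1, 0, 0; 0, -1, -1; 0, 0, 1] * !![1, 0, 0; 0, 1, 0; 0, 0, 1] : M3) = !![1, 0, 0; 0, -1, -1; 0, 0, 1] from by decide,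
    show (!![1, 0, 0; 0, -1, -1; 0, 0, 1] * !![1, 0, 0; 0, 1, 0; 0, -1, -1] : M3) = !![1, 0, 0; 0, 0, 1; 0, -1, -1] from by decide,
    show (!![1, 0, 0; 0, -1, -1; 0, 0, 1] * !![1, 0, 0; 0, 0, 1; 0, 1, 0] : M3) = !![1, 0, 0; 0, -1, -1; 0, 1, 0] from by decide,
    show (!![1, 0, 0; 0, -1, -1; 0, 0, 1] * !![1, 0, 0; 0, 0, 1; 0, -1, -1] : M3) = !![1, 0, 0; 0, 1, 0; 0, -1, -1] from by decide,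
    show (!![1, 0, 0; 0, -1, -1; 0, 0, 1] * !![1, 0, 0; 0, 0, -1; 0, 1, 1] : M3) = !![1, 0, 0; 0, -1, 0; 0, 1, 1] from by decide,
    show (!![1, 0, 0; 0, -1, -1; 0, 0, 1] * !![1, 0, 0; 0, 0, -1; 0, -1, 0] : M3) = !![1, 0, 0; 0, 1, 1; 0, -1, 0] from by decide,
    show (!![1, 0, 0; 0, -1, -1; 0, 0, 1] * !![1, 0, 0; 0, -1, 0; 0, 1, 1] : M3) = !![1, 0, 0; 0, 0, -1; 0, 1, 1] from by decide,
    show (!![1, 0, 0; 0, -1, -1; 0, 0, 1] * !![1, 0, 0; 0, -1, 0; 0, 0, -1] : M3) = !![1, 0, 0; 0, 1, 1; 0, 0, -1] from by decide,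
    show (!![1, 0, 0; 0, -1, -1; 0, 0, 1] * !![1, 0, 0; 0, -1, -1; 0, 1, 0] : M3) = !![1, 0, 0; 0, 0, 1; 0, 1, 0] from by decide,
    show (!![1, 0, 0; 0, -1, -1; 0, 0, 1] * !![1, 0, 0; 0, -1, -1; 0, 0, 1] : M3) = !![1, 0, 0; 0, 1, 0; 0, 0, 1] from by decide] at hh
  have e16 : a !![-1, -1, -1; -1, 0, 0; 0, -1, 0] = a !![1, 0, 0; 0, -1, 0; 0, 0, -1] := by
    have h0 := h.d9 !![1, 0, 0; 0, -1, 0; 0, 0, -1]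
    rwa [show (!![1, 0, 0; 0, -1, 0; 0, 0, -1] * !![-1, -1, -1; 1, 0, 0; 0, 1, 0] : M3) = !![-1, -1, -1; -1, 0, 0; 0, -1, 0] from by decide] at h0
  have e17 : a !![-1, -1, -1; 0, -1, 0; -1, 0, 0] = a !![1, 0, 0; 0, 0, -1; 0, -1, 0] := by
    have h0 := h.d9 !![1, 0, 0; 0, 0, -1; 0, -1, 0]
    rwa [show (!![1, 0, 0; 0, 0, -1; 0, -1, 0] * !![-1, -1, -1; 1, 0, 0; 0, 1, 0] : M3) = !![-1, -1, -1; 0, -1, 0; -1, 0, 0] from by decide] at h0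
  have e18 : a !![-1, -1, -1; -1, -1, 0; 0, 1, 0] = a !![1, 0, 0; 0, -1, -1; 0, 0, 1] := by
    have h0 := h.d9 !![1, 0, 0; 0, -1, -1; 0, 0, 1]
    rwa [show (!![1, 0, 0; 0, -1, -1; 0, 0, 1] * !![-1, -1, -1; 1, 0, 0; 0, 1, 0] : M3) = !![-1, -1, -1; -1, -1, 0; 0, 1, 0] from by decide] at h0
  have e19 : a !![-1, -1, -1; 0, 1, 0; -1, -1, 0] = a !![1, 0, 0; 0, 0, 1; 0, -1, -1] := by
    have h0 := h.d9 !![1, 0, 0; 0, 0, 1; 0, -1, -1]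
    rwa [show (!![1, 0, 0; 0, 0, 1; 0, -1, -1] * !![-1, -1, -1; 1, 0, 0; 0, 1, 0] : M3) = !![-1, -1, -1; 0, 1, 0; -1, -1, 0] from by decide] at h0
  have e20 : a !![-1, -1, -1; -1, -1, 0; 1, 0, 0] = a !![1, 0, 0; 0, -1, -1; 0, 1, 0] := by
    have h0 := h.d9 !![1, 0, 0; 0, -1, -1; 0, 1, 0]
    rwa [show (!![1, 0, 0; 0, -1, -1; 0, 1, 0] * !![-1, -1, -1; 1, 0, 0; 0, 1, 0] : M3) = !![-1, -1, -1; -1, -1, 0; 1, 0, 0] from by decide] at h0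
  have e21 : a !![-1, -1, -1; 0, 0, 1; 0, -1, -1] = a !![1, 0, 0; 0, 1, 0; 0, -1, -1] := by
    have h0 := h.d13 !![1, 0, 0; 0, 1, 0; 0, -1, -1]
    rwa [show (!![1, 0, 0; 0, 1, 0; 0, -1, -1] * !![-1, -1, -1; 0, 0, 1; 0, 1, 0] : M3) = !![-1, -1, -1; 0, 0, 1; 0, -1, -1] from by decide] at h0
  have e22 : a !![-1, -1, -1; -1, 0, 0; 1, 1, 0] = a !![1, 0, 0; 0, -1, 0; 0, 1, 1] := by
    have h0 := h.d9 !![1, 0, 0; 0, -1, 0; 0, 1, 1]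
    rwa [show (!![1, 0, 0; 0, -1, 0; 0, 1, 1] * !![-1, -1, -1; 1, 0, 0; 0, 1, 0] : M3) = !![-1, -1, -1; -1, 0, 0; 1, 1, 0] from by decide] at h0
  have e23 : a !![-1, -1, -1; 0, -1, 0; 0, 1, 1] = a !![1, 0, 0; 0, 0, -1; 0, 1, 1] := by
    have h0 := h.d13 !![1, 0, 0; 0, 0, -1; 0, 1, 1]
    rwa [show (!![1, 0, 0; 0, 0, -1; 0, 1, 1] * !![-1, -1, -1; 0, 0, 1; 0, 1, 0] : M3) = !![-1, -1, -1; 0, -1, 0; 0, 1, 1] from by decide] at h0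
  linear_combination - (1 : ℚ) * e1 - (-1 : ℚ) * e2 - (1 : ℚ) * e3 - (-1 : ℚ) * e4 - (1 : ℚ) * e5 - (-1 : ℚ) * e6 - (1 : ℚ) * e7 - (-1 : ℚ) * e8 - (-1 : ℚ) * e9 - (1 : ℚ) * e10 - (-1 : ℚ) * e11 - (1 : ℚ) * e12 - (-1 : ℚ) * e13 - (1 : ℚ) * e14 - (-1 : ℚ) * e15 + (-1 : ℚ) * hh + (1 : ℚ) * e16 + (-1 : ℚ) * e17 + (-1 : ℚ) * e18 + (1 : ℚ) * e19 + (1 : ℚ) * e20 + (-1 : ℚ) * e21 + (-1 : ℚ) * e22 + (1 : ℚ) * e5 + (1 : ℚ) * e23 + (-1 : ℚ) * e6 + (-1 : ℚ) * e13 + (1 : ℚ) * e14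

theorem HexA.id_r1 (h : HexA a) : a !![1, 0, 0; 0, -1, 0; 0, 1, 1] - a !![1, 0, 0; 0, 0, -1; 0, 1, 1] + a !![-1, 0, -1; 0, 1, 0; 0, 0, 1] - a !![-1, -1, 0; 0, 0, 1; 0, 1, 0] - a !![-1, -1, -1; 0, 0, -1; 0, 1, 1] + a !![-1, -1, -1; 0, -1, 0; 0, 1, 1] - a !![1, 0, 1; 0, 0, 1; 0, 1, 0] + a !![1, 1, 0; 0, 1, 0; 0, 0, 1] = 0 := by
  have e1 : a !![-1, -1, -1; -1, 0, 0; 1, 1, 0] = a !![1, 0, 0; 0, -1, 0; 0, 1, 1] := by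
    have h0 := h.d9 !![1, 0, 0; 0, -1, 0; 0, 1, 1]
    rwa [show (!![1, 0, 0; 0, -1, 0; 0, 1, 1] * !![-1, -1, -1; 1, 0, 0; 0, 1, 0] : M3) = !![-1, -1, -1; -1, 0, 0; 1, 1, 0] from by decide] at h0
  have e2 : a !![-1, -1, -1; 0, -1, 0; 0, 1, 1] = a !![1, 0, 0; 0, 0, -1; 0, 1, 1] := by
    have h0 := h.d13 !![1, 0, 0; 0, 0, -1; 0, 1, 1]
    rwa [show (!![1, 0, 0; 0, 0, -1; 0, 1, 1] * !![-1, -1, -1; 0, 0, 1; 0, 1, 0] : M3) = !![-1, -1, -1; 0, -1, 0; 0, 1, 1] from by decide] at h0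
  have e3 : a !![-1, 0, -1; -1, -1, -1; 0, 0, 1] = a !![-1, 0, -1; 0, 1, 0; 0, 0, 1] := by
    have h0 := h.d15 !![-1, 0, -1; 0, 1, 0; 0, 0, 1]
    rwa [show (!![-1, 0, -1; 0, 1, 0; 0, 0, 1] * !![1, 0, 0; -1, -1, -1; 0, 0, 1] : M3) = !![-1, 0, -1; -1, -1, -1; 0, 0, 1] from by decide] at h0
  have e4 : a !![-1, -1, 0; -1, -1, -1; 1, 0, 0] = a !![-1, -1, 0; 0, 0, 1; 0, 1, 0] := by
    have h0 := h.d12 !![-1, -1, 0; 0, 0, 1; 0, 1, 0]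
    rwa [show (!![-1, -1, 0; 0, 0, 1; 0, 1, 0] * !![0, 1, 0; 1, 0, 0; -1, -1, -1] : M3) = !![-1, -1, 0; -1, -1, -1; 1, 0, 0] from by decide] at h0
  have e5 : a !![-1, -1, -1; -1, 0, 0; 1, 1, 0] = a !![-1, -1, -1; 0, 0, -1; 0, 1, 1] := by
    have h0 := h.d8 !![-1, -1, -1; 0, 0, -1; 0, 1, 1]
    rwa [show (!![-1, -1, -1; 0, 0, -1; 0, 1, 1] * !![0, 0, 1; 0, 1, 0; 1, 0, 0] : M3) = !![-1, -1, -1; -1, 0, 0; 1, 1, 0] from by decide] at h0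
  have e6 : a !![-1, 0, -1; -1, -1, -1; 0, 0, 1] = a !![1, 0, 1; 0, 0, 1; 0, 1, 0] := by
    have h0 := h.d1 !![1, 0, 1; 0, 0, 1; 0, 1, 0]
    rwa [show (!![1, 0, 1; 0, 0, 1; 0, 1, 0] * !![0, 1, 0; 0, 0, 1; -1, -1, -1] : M3) = !![-1, 0, -1; -1, -1, -1; 0, 0, 1] from by decide] at h0
  have e7 : a !![-1, -1, 0; -1, -1, -1; 1, 0, 0] = a !![1, 1, 0; 0, 1, 0; 0, 0, 1] := by
    have h0 := h.d4 !![1, 1, 0; 0, 1, 0; 0, 0, 1]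
    rwa [show (!![1, 1, 0; 0, 1, 0; 0, 0, 1] * !![0, 0, 1; -1, -1, -1; 1, 0, 0] : M3) = !![-1, -1, 0; -1, -1, -1; 1, 0, 0] from by decide] at h0
  linear_combination - (1 : ℚ) * e1 - (-1 : ℚ) * e2 - (1 : ℚ) * e3 - (-1 : ℚ) * e4 - (-1 : ℚ) * e5 - (-1 : ℚ) * e6 - (1 : ℚ) * e7

theorem HexA.id_r2 (h : HexA a) : a !![-1, -1, -1; 0, 1, 1; 0, 0, -1] - a !![-1, -1, -1; 0, 1, 1; 0, -1, 0] - a !![1, 0, 0; 0, 1, 1; 0, -1, 0] + a !![1, 0, 0; 0, 1, 1; 0, 0, -1] - a !![-1, 0, -1; 0, 0, 1; 0, 1, 0] + a !![-1, -1, 0; 0, 1, 0; 0, 0, 1] - a !![1, 1, 0; 0, 0, 1; 0, 1, 0] + a !![1, 0, 1; 0, 1, 0; 0, 0, 1] = 0 := by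
  have e1 : a !![-1, -1, -1; 0, 1, 1; 0, 0, -1] = a !![1, 0, 0; 0, 1, 1; 0, -1, 0] := by
    have h0 := h.d13 !![1, 0, 0; 0, 1, 1; 0, -1, 0]
    rwa [show (!![1, 0, 0; 0, 1, 1; 0, -1, 0] * !![-1, -1, -1; 0, 0, 1; 0, 1, 0] : M3) = !![-1, -1, -1; 0, 1, 1; 0, 0, -1] from by decide] at h0
  have e2 : a !![-1, -1, -1; 0, 1, 1; 0, -1, 0] = a !![1, 0, 0; 0, 1, 1; 0, 0, -1] := by
    have h0 := h.d13 !![1, 0, 0; 0, 1, 1; 0, 0, -1]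
    rwa [show (!![1, 0, 0; 0, 1, 1; 0, 0, -1] * !![-1, -1, -1; 0, 0, 1; 0, 1, 0] : M3) = !![-1, -1, -1; 0, 1, 1; 0, -1, 0] from by decide] at h0
  have e3 : a !![-1, 0, -1; 0, -1, 0; -1, 0, 0] = a !![-1, 0, -1; 0, 0, 1; 0, 1, 0] := by
    have h0 := h.d14 !![-1, 0, -1; 0, 0, 1; 0, 1, 0]
    rwa [show (!![-1, 0, -1; 0, 0, 1; 0, 1, 0] * !![1, 1, 1; -1, 0, 0; 0, -1, 0] : M3) = !![-1, 0, -1; 0, -1, 0; -1, 0, 0] from by decide] at h0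
  have e4 : a !![-1, -1, 0; 0, 0, -1; 0, -1, 0] = a !![-1, -1, 0; 0, 1, 0; 0, 0, 1] := by
    have h0 := h.d7 !![-1, -1, 0; 0, 1, 0; 0, 0, 1]
    rwa [show (!![-1, -1, 0; 0, 1, 0; 0, 0, 1] * !![1, 1, 1; 0, 0, -1; 0, -1, 0] : M3) = !![-1, -1, 0; 0, 0, -1; 0, -1, 0] from by decide] at h0
  have e5 : a !![-1, -1, 0; 0, 0, -1; 0, -1, 0] = a !![1, 1, 0; 0, 0, 1; 0, 1, 0] := by
    have h0 := h.d2 !![1, 1, 0; 0, 0, 1; 0, 1, 0]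
    rwa [show (!![1, 1, 0; 0, 0, 1; 0, 1, 0] * !![-1, 0, 0; 0, -1, 0; 0, 0, -1] : M3) = !![-1, -1, 0; 0, 0, -1; 0, -1, 0] from by decide] at h0
  have e6 : a !![-1, 0, -1; 0, -1, 0; -1, 0, 0] = a !![1, 0, 1; 0, 1, 0; 0, 0, 1] := by
    have h0 := h.d3 !![1, 0, 1; 0, 1, 0; 0, 0, 1]
    rwa [show (!![1, 0, 1; 0, 1, 0; 0, 0, 1] * !![0, 0, -1; 0, -1, 0; -1, 0, 0] : M3) = !![-1, 0, -1; 0, -1, 0; -1, 0, 0] from by decide] at h0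
  linear_combination - (-1 : ℚ) * e1 - (1 : ℚ) * e2 - (-1 : ℚ) * e3 - (1 : ℚ) * e4 - (-1 : ℚ) * e5 - (1 : ℚ) * e6

theorem HexA.id_b1 (h : HexA a) : a !![1, 1, 0; 0, 1, 1; 0, -1, 0] - a !![1, 0, 1; 0, 1, 1; 0, 0, -1] + a !![-1, 0, 0; 0, 1, 0; 0, -1, -1] - a !![-1, 0, 0; 0, 0, 1; 0, -1, -1] + a !![-1, 0, -1; 0, 1, 1; 0, -1, 0] - a !![-1, -1, 0; 0, 1, 1; 0, 0, -1] - a !![-1, -1, -1; 0, 0, -1; 0, 1, 1] + a !![-1, -1, -1; 0, -1, 0; 0, 1, 1] = 0 := by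
  have e1 : a !![-1, -1, 0; 0, -1, -1; 0, 1, 0] = a !![1, 1, 0; 0, 1, 1; 0, -1, 0] := by
    have h0 := h.d2 !![1, 1, 0; 0, 1, 1; 0, -1, 0]
    rwa [show (!![1, 1, 0; 0, 1, 1; 0, -1, 0] * !![-1, 0, 0; 0, -1, 0; 0, 0, -1] : M3) = !![-1, -1, 0; 0, -1, -1; 0, 1, 0] from by decide] at h0
  have e2 : a !![-1, 0, -1; -1, -1, 0; 1, 0, 0] = a !![1, 0, 1; 0, 1, 1; 0, 0, -1] := by
    have h0 := h.d3 !![1, 0, 1; 0, 1, 1; 0, 0, -1]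
    rwa [show (!![1, 0, 1; 0, 1, 1; 0, 0, -1] * !![0, 0, -1; 0, -1, 0; -1, 0, 0] : M3) = !![-1, 0, -1; -1, -1, 0; 1, 0, 0] from by decide] at h0
  have e3 : a !![-1, -1, -1; -1, 0, 0; 1, 1, 0] = a !![-1, 0, 0; 0, 1, 0; 0, -1, -1] := by
    have h0 := h.d14 !![-1, 0, 0; 0, 1, 0; 0, -1, -1]
    rwa [show (!![-1, 0, 0; 0, 1, 0; 0, -1, -1] * !![1, 1, 1; -1, 0, 0; 0, -1, 0] : M3) = !![-1, -1, -1; -1, 0, 0; 1, 1, 0] from by decide] at h0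
  have e4 : a !![-1, -1, -1; 0, -1, 0; 0, 1, 1] = a !![-1, 0, 0; 0, 0, 1; 0, -1, -1] := by
    have h0 := h.d7 !![-1, 0, 0; 0, 0, 1; 0, -1, -1]
    rwa [show (!![-1, 0, 0; 0, 0, 1; 0, -1, -1] * !![1, 1, 1; 0, 0, -1; 0, -1, 0] : M3) = !![-1, -1, -1; 0, -1, 0; 0, 1, 1] from by decide] at h0
  have e5 : a !![-1, 0, -1; -1, -1, 0; 1, 0, 0] = a !![-1, 0, -1; 0, 1, 1; 0, -1, 0] := by
    have h0 := h.d14 !![-1, 0, -1; 0, 1, 1; 0, -1, 0]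
    rwa [show (!![-1, 0, -1; 0, 1, 1; 0, -1, 0] * !![1, 1, 1; -1, 0, 0; 0, -1, 0] : M3) = !![-1, 0, -1; -1, -1, 0; 1, 0, 0] from by decide] at h0
  have e6 : a !![-1, -1, 0; 0, -1, -1; 0, 1, 0] = a !![-1, -1, 0; 0, 1, 1; 0, 0, -1] := by
    have h0 := h.d7 !![-1, -1, 0; 0, 1, 1; 0, 0, -1]
    rwa [show (!![-1, -1, 0; 0, 1, 1; 0, 0, -1] * !![1, 1, 1; 0, 0, -1; 0, -1, 0] : M3) = !![-1, -1, 0; 0, -1, -1; 0, 1, 0] from by decide] at h0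
  have e7 : a !![-1, -1, -1; -1, 0, 0; 1, 1, 0] = a !![-1, -1, -1; 0, 0, -1; 0, 1, 1] := by
    have h0 := h.d8 !![-1, -1, -1; 0, 0, -1; 0, 1, 1]
    rwa [show (!![-1, -1, -1; 0, 0, -1; 0, 1, 1] * !![0, 0, 1; 0, 1, 0; 1, 0, 0] : M3) = !![-1, -1, -1; -1, 0, 0; 1, 1, 0] from by decide] at h0
  linear_combination - (1 : ℚ) * e1 - (-1 : ℚ) * e2 - (1 : ℚ) * e3 - (-1 : ℚ) * e4 - (1 : ℚ) * e5 - (-1 : ℚ) * e6 - (-1 : ℚ) * e7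

theorem HexA.id_b2 (h : HexA a) : a !![1, 1, 0; 0, 0, 1; 0, 1, 0] - a !![1, 0, 1; 0, 1, 0; 0, 0, 1] + a !![-1, -1, -1; 0, 1, 1; 0, -1, 0] - a !![-1, -1, -1; 0, 1, 1; 0, 0, -1] + a !![1, 0, 0; 0, 1, 1; 0, -1, 0] - a !![1, 0, 0; 0, 1, 1; 0, 0, -1] + a !![-1, 0, -1; 0, 0, 1; 0, 1, 0] - a !![-1, -1, 0; 0, 1, 0; 0, 0, 1] = 0 := by
  have e1 : a !![-1, -1, 0; 0, 0, -1; 0, -1, 0] = a !![1, 1, 0; 0, 0, 1; 0, 1, 0] := by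
    have h0 := h.d2 !![1, 1, 0; 0, 0, 1; 0, 1, 0]
    rwa [show (!![1, 1, 0; 0, 0, 1; 0, 1, 0] * !![-1, 0, 0; 0, -1, 0; 0, 0, -1] : M3) = !![-1, -1, 0; 0, 0, -1; 0, -1, 0] from by decide] at h0
  have e2 : a !![-1, 0, -1; 0, -1, 0; -1, 0, 0] = a !![1, 0, 1; 0, 1, 0; 0, 0, 1] := by
    have h0 := h.d3 !![1, 0, 1; 0, 1, 0; 0, 0, 1]
    rwa [show (!![1, 0, 1; 0, 1, 0; 0, 0, 1] * !![0, 0, -1; 0, -1, 0; -1, 0, 0] : M3) = !![-1, 0, -1; 0, -1, 0; -1, 0, 0] from by decide] at h0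
  have e3 : a !![-1, -1, -1; 0, 1, 1; 0, 0, -1] = a !![1, 0, 0; 0, 1, 1; 0, -1, 0] := by
    have h0 := h.d13 !![1, 0, 0; 0, 1, 1; 0, -1, 0]
    rwa [show (!![1, 0, 0; 0, 1, 1; 0, -1, 0] * !![-1, -1, -1; 0, 0, 1; 0, 1, 0] : M3) = !![-1, -1, -1; 0, 1, 1; 0, 0, -1] from by decide] at h0
  have e4 : a !![-1, -1, -1; 0, 1, 1; 0, -1, 0] = a !![1, 0, 0; 0, 1, 1; 0, 0, -1] := by
    have h0 := h.d13 !![1, 0, 0; 0, 1, 1; 0, 0, -1]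
    rwa [show (!![1, 0, 0; 0, 1, 1; 0, 0, -1] * !![-1, -1, -1; 0, 0, 1; 0, 1, 0] : M3) = !![-1, -1, -1; 0, 1, 1; 0, -1, 0] from by decide] at h0
  have e5 : a !![-1, 0, -1; 0, -1, 0; -1, 0, 0] = a !![-1, 0, -1; 0, 0, 1; 0, 1, 0] := by
    have h0 := h.d14 !![-1, 0, -1; 0, 0, 1; 0, 1, 0]
    rwa [show (!![-1, 0, -1; 0, 0, 1; 0, 1, 0] * !![1, 1, 1; -1, 0, 0; 0, -1, 0] : M3) = !![-1, 0, -1; 0, -1, 0; -1, 0, 0] from by decide] at h0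
  have e6 : a !![-1, -1, 0; 0, 0, -1; 0, -1, 0] = a !![-1, -1, 0; 0, 1, 0; 0, 0, 1] := by
    have h0 := h.d7 !![-1, -1, 0; 0, 1, 0; 0, 0, 1]
    rwa [show (!![-1, -1, 0; 0, 1, 0; 0, 0, 1] * !![1, 1, 1; 0, 0, -1; 0, -1, 0] : M3) = !![-1, -1, 0; 0, 0, -1; 0, -1, 0] from by decide] at h0
  linear_combination - (1 : ℚ) * e1 - (-1 : ℚ) * e2 - (1 : ℚ) * e3 - (-1 : ℚ) * e4 - (1 : ℚ) * e5 - (-1 : ℚ) * e6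

theorem HexA.id_t1 (h : HexA a) : a !![1, 1, 1; 0, 1, 0; 0, -1, -1] - a !![1, 1, 1; 0, 0, 1; 0, -1, -1] + a !![-1, 0, 0; 0, -1, 0; 0, 0, -1] - a !![-1, 0, 0; 0, 0, -1; 0, -1, 0] + a !![1, 0, 0; 0, 0, 1; 0, 1, 0] - a !![1, 0, 0; 0, 1, 0; 0, 0, 1] + a !![-1, -1, -1; 0, 0, -1; 0, 1, 1] - a !![-1, -1, -1; 0, -1, 0; 0, 1, 1] = 0 := by
  have e1 : a !![-1, -1, -1; 0, -1, 0; 0, 1, 1] = a !![1, 1, 1; 0, 1, 0; 0, -1, -1] := by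
    have h0 := h.d2 !![1, 1, 1; 0, 1, 0; 0, -1, -1]
    rwa [show (!![1, 1, 1; 0, 1, 0; 0, -1, -1] * !![-1, 0, 0; 0, -1, 0; 0, 0, -1] : M3) = !![-1, -1, -1; 0, -1, 0; 0, 1, 1] from by decide] at h0
  have e2 : a !![-1, -1, -1; -1, 0, 0; 1, 1, 0] = a !![1, 1, 1; 0, 0, 1; 0, -1, -1] := by
    have h0 := h.d3 !![1, 1, 1; 0, 0, 1; 0, -1, -1]
    rwa [show (!![1, 1, 1; 0, 0, 1; 0, -1, -1] * !![0, 0, -1; 0, -1, 0; -1, 0, 0] : M3) = !![-1, -1, -1; -1, 0, 0; 1, 1, 0] from by decide] at h0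
  have e3 : a !![-1, -1, -1; 0, 0, 1; 0, 1, 0] = a !![-1, 0, 0; 0, -1, 0; 0, 0, -1] := by
    have h0 := h.d7 !![-1, 0, 0; 0, -1, 0; 0, 0, -1]
    rwa [show (!![-1, 0, 0; 0, -1, 0; 0, 0, -1] * !![1, 1, 1; 0, 0, -1; 0, -1, 0] : M3) = !![-1, -1, -1; 0, 0, 1; 0, 1, 0] from by decide] at h0
  have e4 : a !![-1, -1, -1; 0, 1, 0; 0, 0, 1] = a !![-1, 0, 0; 0, 0, -1; 0, -1, 0] := by
    have h0 := h.d7 !![-1, 0, 0; 0, 0, -1; 0, -1, 0]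
    rwa [show (!![-1, 0, 0; 0, 0, -1; 0, -1, 0] * !![1, 1, 1; 0, 0, -1; 0, -1, 0] : M3) = !![-1, -1, -1; 0, 1, 0; 0, 0, 1] from by decide] at h0
  have e5 : a !![-1, -1, -1; 0, 1, 0; 0, 0, 1] = a !![1, 0, 0; 0, 0, 1; 0, 1, 0] := by
    have h0 := h.d13 !![1, 0, 0; 0, 0, 1; 0, 1, 0]
    rwa [show (!![1, 0, 0; 0, 0, 1; 0, 1, 0] * !![-1, -1, -1; 0, 0, 1; 0, 1, 0] : M3) = !![-1, -1, -1; 0, 1, 0; 0, 0, 1] from by decide] at h0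
  have e6 : a !![-1, -1, -1; 0, 0, 1; 0, 1, 0] = a !![1, 0, 0; 0, 1, 0; 0, 0, 1] := by
    have h0 := h.d13 !![1, 0, 0; 0, 1, 0; 0, 0, 1]
    rwa [show (!![1, 0, 0; 0, 1, 0; 0, 0, 1] * !![-1, -1, -1; 0, 0, 1; 0, 1, 0] : M3) = !![-1, -1, -1; 0, 0, 1; 0, 1, 0] from by decide] at h0
  have e7 : a !![-1, -1, -1; -1, 0, 0; 1, 1, 0] = a !![-1, -1, -1; 0, 0, -1; 0, 1, 1] := by
    have h0 := h.d8 !![-1, -1, -1; 0, 0, -1; 0, 1, 1]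
    rwa [show (!![-1, -1, -1; 0, 0, -1; 0, 1, 1] * !![0, 0, 1; 0, 1, 0; 1, 0, 0] : M3) = !![-1, -1, -1; -1, 0, 0; 1, 1, 0] from by decide] at h0
  linear_combination - (1 : ℚ) * e1 - (-1 : ℚ) * e2 - (1 : ℚ) * e3 - (-1 : ℚ) * e4 - (1 : ℚ) * e5 - (-1 : ℚ) * e6 - (1 : ℚ) * e7

theorem HexA.id_t2 (h : HexA a) : a !![1, 1, 0; 0, -1, 0; 0, 0, -1] - a !![1, 0, 1; 0, 0, -1; 0, -1, 0] + a !![-1, 0, 0; 0, -1, -1; 0, 0, 1] - a !![-1, 0, 0; 0, -1, -1; 0, 1, 0] + a !![1, 0, 0; 0, 1, 1; 0, -1, 0] - a !![1, 0, 0; 0, 1, 1; 0, 0, -1] + a !![-1, 0, -1; 0, 0, 1; 0, 1, 0] - a !![-1, -1, 0; 0, 1, 0; 0, 0, 1] = 0 := by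
  have e1 : a !![-1, -1, 0; 0, 0, -1; 0, -1, 0] = a !![1, 1, 0; 0, -1, 0; 0, 0, -1] := by
    have h0 := h.d13 !![1, 1, 0; 0, -1, 0; 0, 0, -1]
    rwa [show (!![1, 1, 0; 0, -1, 0; 0, 0, -1] * !![-1, -1, -1; 0, 0, 1; 0, 1, 0] : M3) = !![-1, -1, 0; 0, 0, -1; 0, -1, 0] from by decide] at h0
  have e2 : a !![-1, 0, -1; 0, -1, 0; -1, 0, 0] = a !![1, 0, 1; 0, 0, -1; 0, -1, 0] := by
    have h0 := h.d9 !![1, 0, 1; 0, 0, -1; 0, -1, 0]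
    rwa [show (!![1, 0, 1; 0, 0, -1; 0, -1, 0] * !![-1, -1, -1; 1, 0, 0; 0, 1, 0] : M3) = !![-1, 0, -1; 0, -1, 0; -1, 0, 0] from by decide] at h0
  have e3 : a !![-1, -1, -1; 0, 1, 1; 0, -1, 0] = a !![-1, 0, 0; 0, -1, -1; 0, 0, 1] := by
    have h0 := h.d7 !![-1, 0, 0; 0, -1, -1; 0, 0, 1]
    rwa [show (!![-1, 0, 0; 0, -1, -1; 0, 0, 1] * !![1, 1, 1; 0, 0, -1; 0, -1, 0] : M3) = !![-1, -1, -1; 0, 1, 1; 0, -1, 0] from by decide] at h0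
  have e4 : a !![-1, -1, -1; 0, 1, 1; 0, 0, -1] = a !![-1, 0, 0; 0, -1, -1; 0, 1, 0] := by
    have h0 := h.d7 !![-1, 0, 0; 0, -1, -1; 0, 1, 0]
    rwa [show (!![-1, 0, 0; 0, -1, -1; 0, 1, 0] * !![1, 1, 1; 0, 0, -1; 0, -1, 0] : M3) = !![-1, -1, -1; 0, 1, 1; 0, 0, -1] from by decide] at h0
  have e5 : a !![-1, -1, -1; 0, 1, 1; 0, 0, -1] = a !![1, 0, 0; 0, 1, 1; 0, -1, 0] := by
    have h0 := h.d13 !![1, 0, 0; 0, 1, 1; 0, -1, 0]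
    rwa [show (!![1, 0, 0; 0, 1, 1; 0, -1, 0] * !![-1, -1, -1; 0, 0, 1; 0, 1, 0] : M3) = !![-1, -1, -1; 0, 1, 1; 0, 0, -1] from by decide] at h0
  have e6 : a !![-1, -1, -1; 0, 1, 1; 0, -1, 0] = a !![1, 0, 0; 0, 1, 1; 0, 0, -1] := by
    have h0 := h.d13 !![1, 0, 0; 0, 1, 1; 0, 0, -1]
    rwa [show (!![1, 0, 0; 0, 1, 1; 0, 0, -1] * !![-1, -1, -1; 0, 0, 1; 0, 1, 0] : M3) = !![-1, -1, -1; 0, 1, 1; 0, -1, 0] from by decide] at h0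
  have e7 : a !![-1, 0, -1; 0, -1, 0; -1, 0, 0] = a !![-1, 0, -1; 0, 0, 1; 0, 1, 0] := by
    have h0 := h.d14 !![-1, 0, -1; 0, 0, 1; 0, 1, 0]
    rwa [show (!![-1, 0, -1; 0, 0, 1; 0, 1, 0] * !![1, 1, 1; -1, 0, 0; 0, -1, 0] : M3) = !![-1, 0, -1; 0, -1, 0; -1, 0, 0] from by decide] at h0
  have e8 : a !![-1, -1, 0; 0, 0, -1; 0, -1, 0] = a !![-1, -1, 0; 0, 1, 0; 0, 0, 1] := by
    have h0 := h.d7 !![-1, -1, 0; 0, 1, 0; 0, 0, 1]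
    rwa [show (!![-1, -1, 0; 0, 1, 0; 0, 0, 1] * !![1, 1, 1; 0, 0, -1; 0, -1, 0] : M3) = !![-1, -1, 0; 0, 0, -1; 0, -1, 0] from by decide] at h0
  linear_combination - (1 : ℚ) * e1 - (-1 : ℚ) * e2 - (1 : ℚ) * e3 - (-1 : ℚ) * e4 - (1 : ℚ) * e5 - (-1 : ℚ) * e6 - (1 : ℚ) * e7 - (-1 : ℚ) * e8

theorem HexA.id_q (h : HexA a) : a !![1, 1, 0; 0, 0, 1; 0, -1, 0] - a !![1, 0, 1; 0, 1, 0; 0, 0, -1] + a !![-1, -1, -1; 0, 1, 1; 0, 1, 0] - a !![-1, -1, -1; 0, 1, 1; 0, 0, 1] - a !![1, 0, 0; 0, 1, 1; 0, -1, 0] + a !![1, 0, 0; 0, 1, 1; 0, 0, -1] - a !![-1, 0, -1; 0, 0, 1; 0, 1, 0] + a !![-1, -1, 0; 0, 1, 0; 0, 0, 1] - a !![-1, -1, 0; 1, 1, 1; 0, -1, 0] + a !![-1, 0, -1; 1, 1, 1; 0, 0, -1] - a !![1, 1, 1; -1, 0, 0; 0, 1, 0] + a !![1, 1, 1; -1, 0, 0; 0, 0, 1] + a !![-1, 0, 0; 1, 1, 1; 0, -1, 0]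 - a !![-1, 0, 0; 1, 1, 1; 0, 0, -1] + a !![1, 0, 1; -1, 0, 0; 0, 1, 0] - a !![1, 1, 0; -1, 0, 0; 0, 0, 1] = 0 := by
  have e1 : a !![-1, -1, 0; 0, 0, -1; 0, 1, 0] = a !![1, 1, 0; 0, 0, 1; 0, -1, 0] := by
    have h0 := h.d2 !![1, 1, 0; 0, 0, 1; 0, -1, 0]
    rwa [show (!![1, 1, 0; 0, 0, 1; 0, -1, 0] * !![-1, 0, 0; 0, -1, 0; 0, 0, -1] : M3) = !![-1, -1, 0; 0, 0, -1; 0, 1, 0] from by decide] at h0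
  have e2 : a !![-1, 0, -1; 0, -1, 0; 0, 0, 1] = a !![1, 0, 1; 0, 1, 0; 0, 0, -1] := by
    have h0 := h.d2 !![1, 0, 1; 0, 1, 0; 0, 0, -1]
    rwa [show (!![1, 0, 1; 0, 1, 0; 0, 0, -1] * !![-1, 0, 0; 0, -1, 0; 0, 0, -1] : M3) = !![-1, 0, -1; 0, -1, 0; 0, 0, 1] from by decide] at h0
  have e3 : a !![-1, -1, -1; 0, 1, 1; 0, 0, -1] = a !![1, 0, 0; 0, 1, 1; 0, -1, 0] := by
    have h0 := h.d13 !![1, 0, 0; 0, 1, 1; 0, -1, 0]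
    rwa [show (!![1, 0, 0; 0, 1, 1; 0, -1, 0] * !![-1, -1, -1; 0, 0, 1; 0, 1, 0] : M3) = !![-1, -1, -1; 0, 1, 1; 0, 0, -1] from by decide] at h0
  have e4 : a !![-1, -1, -1; 0, 1, 1; 0, -1, 0] = a !![1, 0, 0; 0, 1, 1; 0, 0, -1] := by
    have h0 := h.d13 !![1, 0, 0; 0, 1, 1; 0, 0, -1]
    rwa [show (!![1, 0, 0; 0, 1, 1; 0, 0, -1] * !![-1, -1, -1; 0, 0, 1; 0, 1, 0] : M3) = !![-1, -1, -1; 0, 1, 1; 0, -1, 0] from by decide] at h0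
  have e5 : a !![-1, 0, -1; 0, -1, 0; -1, 0, 0] = a !![-1, 0, -1; 0, 0, 1; 0, 1, 0] := by
    have h0 := h.d14 !![-1, 0, -1; 0, 0, 1; 0, 1, 0]
    rwa [show (!![-1, 0, -1; 0, 0, 1; 0, 1, 0] * !![1, 1, 1; -1, 0, 0; 0, -1, 0] : M3) = !![-1, 0, -1; 0, -1, 0; -1, 0, 0] from by decide] at h0
  have e6 : a !![-1, -1, 0; 0, 0, -1; 0, -1, 0] = a !![-1, -1, 0; 0, 1, 0; 0, 0, 1] := by
    have h0 := h.d7 !![-1, -1, 0; 0, 1, 0; 0, 0, 1]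
    rwa [show (!![-1, -1, 0; 0, 1, 0; 0, 0, 1] * !![1, 1, 1; 0, 0, -1; 0, -1, 0] : M3) = !![-1, -1, 0; 0, 0, -1; 0, -1, 0] from by decide] at h0
  have e7 : a !![-1, -1, 0; 0, 0, -1; -1, 0, 0] = a !![-1, -1, 0; 1, 1, 1; 0, -1, 0] := by
    have h0 := h.d12 !![-1, -1, 0; 1, 1, 1; 0, -1, 0]
    rwa [show (!![-1, -1, 0; 1, 1, 1; 0, -1, 0] * !![0, 1, 0; 1, 0, 0; -1, -1, -1] : M3) = !![-1, -1, 0; 0, 0, -1; -1, 0, 0] from by decide] at h0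
  have e8 : a !![-1, 0, -1; 0, -1, 0; -1, 0, 0] = a !![-1, 0, -1; 1, 1, 1; 0, 0, -1] := by
    have h0 := h.d4 !![-1, 0, -1; 1, 1, 1; 0, 0, -1]
    rwa [show (!![-1, 0, -1; 1, 1, 1; 0, 0, -1] * !![0, 0, 1; -1, -1, -1; 1, 0, 0] : M3) = !![-1, 0, -1; 0, -1, 0; -1, 0, 0] from by decide] at h0
  have e9 : a !![-1, -1, -1; 0, 0, 1; 0, -1, 0] = a !![1, 1, 1; -1, 0, 0; 0, 1, 0] := by
    have h0 := h.d3 !![1, 1, 1; -1, 0, 0; 0, 1, 0]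
    rwa [show (!![1, 1, 1; -1, 0, 0; 0, 1, 0] * !![0, 0, -1; 0, -1, 0; -1, 0, 0] : M3) = !![-1, -1, -1; 0, 0, 1; 0, -1, 0] from by decide] at h0
  have e10 : a !![-1, -1, -1; 0, 0, 1; -1, 0, 0] = a !![1, 1, 1; -1, 0, 0; 0, 0, 1] := by
    have h0 := h.d3 !![1, 1, 1; -1, 0, 0; 0, 0, 1]
    rwa [show (!![1, 1, 1; -1, 0, 0; 0, 0, 1] * !![0, 0, -1; 0, -1, 0; -1, 0, 0] : M3) = !![-1, -1, -1; 0, 0, 1; -1, 0, 0] from by decide] at h0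
  have e11 : a !![-1, -1, -1; 0, 0, 1; 1, 0, 0] = a !![-1, 0, 0; 1, 1, 1; 0, -1, 0] := by
    have h0 := h.d14 !![-1, 0, 0; 1, 1, 1; 0, -1, 0]
    rwa [show (!![-1, 0, 0; 1, 1, 1; 0, -1, 0] * !![1, 1, 1; -1, 0, 0; 0, -1, 0] : M3) = !![-1, -1, -1; 0, 0, 1; 1, 0, 0] from by decide] at h0
  have e12 : a !![-1, -1, -1; 0, 0, 1; 0, 1, 0] = a !![-1, 0, 0; 1, 1, 1; 0, 0, -1] := by
    have h0 := h.d14 !![-1, 0, 0; 1, 1, 1; 0, 0, -1]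
    rwa [show (!![-1, 0, 0; 1, 1, 1; 0, 0, -1] * !![1, 1, 1; -1, 0, 0; 0, -1, 0] : M3) = !![-1, -1, -1; 0, 0, 1; 0, 1, 0] from by decide] at h0
  have e13 : a !![-1, 0, -1; 0, -1, 0; 0, 0, 1] = a !![1, 0, 1; -1, 0, 0; 0, 1, 0] := by
    have h0 := h.d1 !![1, 0, 1; -1, 0, 0; 0, 1, 0]
    rwa [show (!![1, 0, 1; -1, 0, 0; 0, 1, 0] * !![0, 1, 0; 0, 0, 1; -1, -1, -1] : M3) = !![-1, 0, -1; 0, -1, 0; 0, 0, 1] from by decide] at h0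
  have e14 : a !![-1, -1, 0; 0, 0, -1; 1, 0, 0] = a !![1, 1, 0; -1, 0, 0; 0, 0, 1] := by
    have h0 := h.d4 !![1, 1, 0; -1, 0, 0; 0, 0, 1]
    rwa [show (!![1, 1, 0; -1, 0, 0; 0, 0, 1] * !![0, 0, 1; -1, -1, -1; 1, 0, 0] : M3) = !![-1, -1, 0; 0, 0, -1; 1, 0, 0] from by decide] at h0
  have hh := h.hex !![0, 0, 1; 0, -1, -1; 1, 0, 0]
  rw [show (!![0, 0, 1; 0, -1, -1; 1, 0, 0] * !![1, 0, 0; 0, 1, 1; 0, 0, -1] : M3) = !![0, 0, -1; 0, -1, 0; 1, 0, 0] from by decide,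
    show (!![0, 0, 1; 0, -1, -1; 1, 0, 0] * !![1, 0, 0; 0, 1, 1; 0, -1, 0] : M3) = !![0, -1, 0; 0, 0, -1; 1, 0, 0] from by decide,
    show (!![0, 0, 1; 0, -1, -1; 1, 0, 0] * !![1, 0, 0; 0, 1, 0; 0, 0, 1] : M3) = !![0, 0, 1; 0, -1, -1; 1, 0, 0] from by decide,
    show (!![0, 0, 1; 0, -1, -1; 1, 0, 0] * !![1, 0, 0; 0, 1, 0; 0, -1, -1] : M3) = !![0, -1, -1; 0, 0, 1; 1, 0, 0] from by decide,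
    show (!![0, 0, 1; 0, -1, -1; 1, 0, 0] * !![1, 0, 0; 0, 0, 1; 0, 1, 0] : M3) = !![0, 1, 0; 0, -1, -1; 1, 0, 0] from by decide,
    show (!![0, 0, 1; 0, -1, -1; 1, 0, 0] * !![1, 0, 0; 0, 0, 1; 0, -1, -1] : M3) = !![0, -1, -1; 0, 1, 0; 1, 0, 0] from by decide,
    show (!![0, 0, 1; 0, -1, -1; 1, 0, 0] * !![1, 0, 0; 0, 0, -1; 0, 1, 1] : M3) = !![0, 1, 1; 0, -1, 0; 1, 0, 0] from by decide,
    show (!![0, 0, 1; 0, -1, -1; 1, 0, 0] * !![1, 0, 0; 0, 0, -1; 0, -1, 0] : M3) = !![0, -1, 0; 0, 1, 1; 1, 0, 0] from by decide,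
    show (!![0, 0, 1; 0, -1, -1; 1, 0, 0] * !![1, 0, 0; 0, -1, 0; 0, 1, 1] : M3) = !![0, 1, 1; 0, 0, -1; 1, 0, 0] from by decide,
    show (!![0, 0, 1; 0, -1, -1; 1, 0, 0] * !![1, 0, 0; 0, -1, 0; 0, 0, -1] : M3) = !![0, 0, -1; 0, 1, 1; 1, 0, 0] from by decide,
    show (!![0, 0, 1; 0, -1, -1; 1, 0, 0] * !![1, 0, 0; 0, -1, -1; 0, 1, 0] : M3) = !![0, 1, 0; 0, 0, 1; 1, 0, 0] from by decide,
    show (!![0, 0, 1; 0, -1, -1; 1, 0, 0] * !![1, 0, 0; 0, -1, -1; 0, 0, 1] : M3) = !![0, 0, 1; 0, 1, 0; 1, 0, 0] from by decide] at hh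
  have e15 : a !![-1, -1, -1; 0, 0, 1; 0, -1, 0] = a !![0, 0, -1; 0, -1, 0; 1, 0, 0] := by
    have h0 := h.d5 !![0, 0, -1; 0, -1, 0; 1, 0, 0]
    rwa [show (!![0, 0, -1; 0, -1, 0; 1, 0, 0] * !![0, -1, 0; 0, 0, -1; 1, 1, 1] : M3) = !![-1, -1, -1; 0, 0, 1; 0, -1, 0] from by decide] at h0
  have e16 : a !![-1, -1, -1; 0, 0, 1; -1, 0, 0] = a !![0, -1, 0; 0, 0, -1; 1, 0, 0] := by
    have h0 := h.d11 !![0, -1, 0; 0, 0, -1; 1, 0, 0]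
    rwa [show (!![0, -1, 0; 0, 0, -1; 1, 0, 0] * !![-1, 0, 0; 1, 1, 1; 0, 0, -1] : M3) = !![-1, -1, -1; 0, 0, 1; -1, 0, 0] from by decide] at h0
  have e17 : a !![-1, -1, -1; 0, 1, 1; 0, 1, 0] = a !![0, 0, 1; 0, -1, -1; 1, 0, 0] := by
    have h0 := h.d12 !![0, 0, 1; 0, -1, -1; 1, 0, 0]
    rwa [show (!![0, 0, 1; 0, -1, -1; 1, 0, 0] * !![0, 1, 0; 1, 0, 0; -1, -1, -1] : M3) = !![-1, -1, -1; 0, 1, 1; 0, 1, 0] from by decide] at h0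
  have e18 : a !![-1, -1, 0; 0, 0, -1; -1, 0, 0] = a !![0, -1, -1; 0, 0, 1; 1, 0, 0] := by
    have h0 := h.d11 !![0, -1, -1; 0, 0, 1; 1, 0, 0]
    rwa [show (!![0, -1, -1; 0, 0, 1; 1, 0, 0] * !![-1, 0, 0; 1, 1, 1; 0, 0, -1] : M3) = !![-1, -1, 0; 0, 0, -1; -1, 0, 0] from by decide] at h0
  have e19 : a !![-1, -1, -1; 0, 1, 1; 0, 0, 1] = a !![0, 1, 0; 0, -1, -1; 1, 0, 0] := by
    have h0 := h.d4 !![0, 1, 0; 0, -1, -1; 1, 0, 0]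
    rwa [show (!![0, 1, 0; 0, -1, -1; 1, 0, 0] * !![0, 0, 1; -1, -1, -1; 1, 0, 0] : M3) = !![-1, -1, -1; 0, 1, 1; 0, 0, 1] from by decide] at h0
  have e20 : a !![-1, -1, 0; 0, 0, -1; 0, -1, 0] = a !![0, -1, -1; 0, 1, 0; 1, 0, 0] := by
    have h0 := h.d5 !![0, -1, -1; 0, 1, 0; 1, 0, 0]
    rwa [show (!![0, -1, -1; 0, 1, 0; 1, 0, 0] * !![0, -1, 0; 0, 0, -1; 1, 1, 1] : M3) = !![-1, -1, 0; 0, 0, -1; 0, -1, 0] from by decide] at h0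
  have e21 : a !![-1, -1, 0; 0, 0, -1; 0, 1, 0] = a !![0, 1, 1; 0, -1, 0; 1, 0, 0] := by
    have h0 := h.d1 !![0, 1, 1; 0, -1, 0; 1, 0, 0]
    rwa [show (!![0, 1, 1; 0, -1, 0; 1, 0, 0] * !![0, 1, 0; 0, 0, 1; -1, -1, -1] : M3) = !![-1, -1, 0; 0, 0, -1; 0, 1, 0] from by decide] at h0
  have e22 : a !![-1, -1, -1; 0, 1, 1; 0, 0, -1] = a !![0, -1, 0; 0, 1, 1; 1, 0, 0] := by
    have h0 := h.d10 !![0, -1, 0; 0, 1, 1; 1, 0, 0]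
    rwa [show (!![0, -1, 0; 0, 1, 1; 1, 0, 0] * !![0, 0, -1; 1, 1, 1; -1, 0, 0] : M3) = !![-1, -1, -1; 0, 1, 1; 0, 0, -1] from by decide] at h0
  have e23 : a !![-1, -1, 0; 0, 0, -1; 1, 0, 0] = a !![0, 1, 1; 0, 0, -1; 1, 0, 0] := by
    have h0 := h.d15 !![0, 1, 1; 0, 0, -1; 1, 0, 0]
    rwa [show (!![0, 1, 1; 0, 0, -1; 1, 0, 0] * !![1, 0, 0; -1, -1, -1; 0, 0, 1] : M3) = !![-1, -1, 0; 0, 0, -1; 1, 0, 0] from by decide] at h0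
  have e24 : a !![-1, -1, -1; 0, 1, 1; 0, -1, 0] = a !![0, 0, -1; 0, 1, 1; 1, 0, 0] := by
    have h0 := h.d6 !![0, 0, -1; 0, 1, 1; 1, 0, 0]
    rwa [show (!![0, 0, -1; 0, 1, 1; 1, 0, 0] * !![0, -1, 0; -1, 0, 0; 1, 1, 1] : M3) = !![-1, -1, -1; 0, 1, 1; 0, -1, 0] from by decide] at h0
  have e25 : a !![-1, -1, -1; 0, 0, 1; 1, 0, 0] = a !![0, 1, 0; 0, 0, 1; 1, 0, 0] := by
    have h0 := h.d15 !![0, 1, 0; 0, 0, 1; 1, 0, 0]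
    rwa [show (!![0, 1, 0; 0, 0, 1; 1, 0, 0] * !![1, 0, 0; -1, -1, -1; 0, 0, 1] : M3) = !![-1, -1, -1; 0, 0, 1; 1, 0, 0] from by decide] at h0
  have e26 : a !![-1, -1, -1; 0, 0, 1; 0, 1, 0] = a !![0, 0, 1; 0, 1, 0; 1, 0, 0] := by
    have h0 := h.d1 !![0, 0, 1; 0, 1, 0; 1, 0, 0]
    rwa [show (!![0, 0, 1; 0, 1, 0; 1, 0, 0] * !![0, 1, 0; 0, 0, 1; -1, -1, -1] : M3) = !![-1, -1, -1; 0, 0, 1; 0, 1, 0] from by decide] at h0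
  linear_combination - (1 : ℚ) * e1 - (-1 : ℚ) * e2 - (-1 : ℚ) * e3 - (1 : ℚ) * e4 - (-1 : ℚ) * e5 - (1 : ℚ) * e6 - (-1 : ℚ) * e7 - (1 : ℚ) * e8 - (-1 : ℚ) * e9 - (1 : ℚ) * e10 - (1 : ℚ) * e11 - (-1 : ℚ) * e12 - (1 : ℚ) * e13 - (-1 : ℚ) * e14 + (1 : ℚ) * hh + (-1 : ℚ) * e15 + (1 : ℚ) * e16 + (1 : ℚ) * e17 + (-1 : ℚ) * e18 + (-1 : ℚ) * e19 + (1 : ℚ) * e20 + (1 : ℚ) * e21 + (-1 : ℚ) * e22 + (-1 : ℚ) * e23 + (1 : ℚ) * e24 + (1 : ℚ) * e25 + (-1 : ℚ) * e26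

end Pool.Agent.K3h43.GEN
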