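import Pool.Agent.K3h43.GEN.Ex

set_option autoImplicit false

namespace Pool.Agent.K3h43.GEN

open Pool.Agent.K3h43.DSL MvPolynomial

def mK : M3 := !![1, 0, 0; 0, 0, 0; 0, 0, 0]

theorem mod12 (Q : R) : ∃ P1 P2 : R, Q = S mK Q + X 1 * P1 + X 2 * P2 := by
  induction Q using MvPolynomial.induction_on with
  | C a =>
    refine ⟨0, 0, ?_⟩
    have h1 : S mK (C a : R) = C a := by
      unfold S
      rw [aeval_C]
      rfl
    rw [h1]
    ring
  | add p q hp hq =>
    obtain ⟨P1, P2, h1⟩ := hp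
    obtain ⟨P3, P4, h2⟩ := hq
    refine ⟨P1 + P3, P2 + P4, ?_⟩
    rw [map_add]
    linear_combination h1 + h2
  | mul_X p i hp =>
    obtain ⟨P1, P2, h1⟩ := hp
    have hi : S mK (X i : R) = ((mK i 0 : ℤ) : R) * X 0 + ((mK i 1 : ℤ) : R) * X 1 +
        ((mK i 2 : ℤ) : R) * X 2 := by
      rw [S_X, Fin.sum_univ_three]
    rw [map_mul, hi]
    fin_cases i
    · refine ⟨P1 * X 0, P2 * X 0, ?_⟩
      simp only [mK] at h1 ⊢
      simp
      linear_combination X 0 * h1
    · refine ⟨p, 0, ?_⟩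
      simp only [mK]
      simp
      ring
    · refine ⟨0, p, ?_⟩
      simp only [mK]
      simp
      ring

theorem killI (hS : Surj01) (μ : R →ₗ[ℚ] ℚ) (h1 : ∀ Q, μ (S E1 Q - Q) = 0)
    (h2 : ∀ Q, μ (S E2 Q - Q) = 0) (Q : R) : μ Q = μ (S mK Q) := by
  obtain ⟨P1, P2, hQ⟩ := mod12 Q
  obtain ⟨Q1, hQ1⟩ := surj1 hS P1
  obtain ⟨Q2, hQ2⟩ := surj2 hS P2
  have h3 := h1 Q1
  have h4 := h2 Q2
  rw [hQ1] at h3
  rw [hQ2] at h4
  have h5 := congrArg μ hQ
  rw [map_add, map_add, h3, h4] at h5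
  linarith

variable {α : R →ₗ[ℚ] ℚ}

/-- the functional with the prescribed cocycle -/
structure Mm (α : R →ₗ[ℚ] ℚ) (m : R →ₗ[ℚ] ℚ) : Prop where
  e1 : ∀ Q, m (S E1 Q - Q) = x1 α Q
  e2 : ∀ Q, m (S E2 Q - Q) = x2 α Q

theorem Mm.rho (hS : Surj01) (h : Hex α) {m : R →ₗ[ℚ] ℚ} (hm : Mm α m) (Q : R) :
    m (S mR Q) = m Q + gam α Q := by
  have key := killI hS (m ∘ₗ (S mR).toLinearMap - m - gam α) (by
    intro Q
    have a1 : S mR (S E1 Q) = S E2 (S mR Q) := by
      rw [S_comp, S_comp]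
      congr 2
      decide
    have a2 := hm.e2 (S mR Q)
    have a3 := hm.e1 Q
    have a4 := r1 h Q
    simp only [LinearMap.sub_apply, LinearMap.comp_apply, AlgHom.toLinearMap_apply, map_sub, a1]
      at a2 a3 ⊢
    linarith) (by
    intro Q
    have a1 : S mR (S E2 Q) = S E1 (S mR Q) := by
      rw [S_comp, S_comp]
      congr 2
      decide
    have a2 := hm.e1 (S mR Q)
    have a3 := hm.e2 Q
    have a4 := r2 h Q
    simp only [LinearMap.sub_apply, LinearMap.comp_apply, AlgHom.toLinearMap_apply, map_sub, a1]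
      at a2 a3 ⊢
    linarith) Q
  have b1 : S mR (S mK Q) = S mK Q := by
    rw [S_comp]
    congr 2
    decide
  simp only [LinearMap.sub_apply, LinearMap.comp_apply, AlgHom.toLinearMap_apply, b1,
    gam_apply] at key
  rw [gam_apply]
  linarith

theorem Mm.two (hS : Surj01) (h : Hex α) {m : R →ₗ[ℚ] ℚ} (hm : Mm α m) (Q : R) :
    m (S m2 Q) = m Q := by
  have key := killI hS (m ∘ₗ (S m2).toLinearMap - m) (by
    intro Q
    have a1 : S m2 (S E1 Q) = S E1 (S (m2 * E2) Q) := by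
      rw [S_comp, S_comp]
      congr 2
      decide
    have a5 : S E2 (S m2 Q) = S (m2 * E2) Q := by
      rw [S_comp]
    have a2 := hm.e1 (S (m2 * E2) Q)
    have a3 := hm.e2 (S m2 Q)
    have a6 := hm.e1 Q
    have a4 := b1 h Q
    rw [a5] at a3
    simp only [LinearMap.sub_apply, LinearMap.comp_apply, AlgHom.toLinearMap_apply, map_sub, a1]
      at a2 a3 a6 ⊢
    linarith) (by
    intro Q
    have a1 : S m2 (S E2 Q) = S (m2 * F2) Q := by
      rw [S_comp]
      congr 2
      decide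
    have a5 : S E2 (S (m2 * F2) Q) = S m2 Q := by
      rw [S_comp]
      congr 2
      decide
    have a2 := hm.e2 (S (m2 * F2) Q)
    have a3 := hm.e2 Q
    have a4 := b2 h Q
    rw [a5] at a2
    simp only [LinearMap.sub_apply, LinearMap.comp_apply, AlgHom.toLinearMap_apply, map_sub, a1]
      at a2 a3 ⊢
    linarith) Q
  have b1 : S m2 (S mK Q) = S mK Q := by
    rw [S_comp]
    congr 2
    decide
  simp only [LinearMap.sub_apply, LinearMap.comp_apply, AlgHom.toLinearMap_apply, b1] at key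
  linarith

theorem Mm.tt (hS : Surj01) (h : Hex α) {m : R →ₗ[ℚ] ℚ} (hm : Mm α m) (Q : R) :
    m (S mt Q) = m Q := by
  have key := killI hS (m ∘ₗ (S mt).toLinearMap - m) (by
    intro Q
    have a1 : S mt (S E1 Q) = S (mt * F2) Q := by
      rw [S_comp]
      congr 2
      decide
    have a5 : S E2 (S (mt * F2) Q) = S mt Q := by
      rw [S_comp]
      congr 2
      decide
    have a2 := hm.e2 (S (mt * F2) Q)
    have a3 := hm.e1 Q
    have a4 := t1 h Q
    rw [a5] at a2
    simp only [LinearMap.sub_apply, LinearMap.comp_apply, AlgHom.toLinearMap_apply, map_sub, a1]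
      at a2 a3 ⊢
    linarith) (by
    intro Q
    have a1 : S mt (S E2 Q) = S (mt * F1) Q := by
      rw [S_comp]
      congr 2
      decide
    have a5 : S E1 (S (mt * F1) Q) = S mt Q := by
      rw [S_comp]
      congr 2
      decide
    have a2 := hm.e1 (S (mt * F1) Q)
    have a3 := hm.e2 Q
    have a4 := t2 h Q
    rw [a5] at a2
    simp only [LinearMap.sub_apply, LinearMap.comp_apply, AlgHom.toLinearMap_apply, map_sub, a1]
      at a2 a3 ⊢
    linarith) Q
  -- the value at a power of `v₀`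
  have c1 : S mt (S mK Q) = S E1 (S E2 (S mK Q)) := by
    rw [S_comp, S_comp, S_comp]
    congr 2
    decide
  have c2 : S m2 (S mK Q) = S mK Q := by
    rw [S_comp]
    congr 2
    decide
  have c3 := b1 h (S mK Q)
  have c4 : S (m2 * E2) (S mK Q) = S E2 (S mK Q) := by
    rw [S_comp, S_comp]
    congr 2
    decide
  rw [c4, c2] at c3
  have c5 := hm.e1 (S E2 (S mK Q))
  have c6 := hm.e2 (S mK Q)
  have c7 : x1 α (S mK Q) = 0 := by
    rw [x1_apply, gam_apply, S_comp, S_comp]
    have d1 : S (mK * (mr * m1)) Q = S mt (S !![-1, 0, 0; 0, 0, 0; 0, 0, 0] Q) := by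
      rw [S_comp]
      congr 2
      decide
    rw [d1, gam_t h, gam_apply, S_comp, show mK * mR = mK from by decide,
      show (!![-1, 0, 0; 0, 0, 0; 0, 0, 0] : M3) * mR = !![-1, 0, 0; 0, 0, 0; 0, 0, 0] from by decide]
    ring
  simp only [LinearMap.sub_apply, LinearMap.comp_apply, AlgHom.toLinearMap_apply, map_sub, c1]
    at key c5 c6
  linarith

end Pool.Agent.K3h43.GEN
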