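import Pool.Agent.K3h43.GEN.V3b

set_option autoImplicit false

namespace Pool.Agent.K3h43.GEN

open Pool.Agent.K3h43.DSL MvPolynomial

theorem hom_em {m : ℕ} (a b : R) (ha : a.IsHomogeneous 1) (hb : b.IsHomogeneous 1) {g : B2}
    (hg : g.IsHomogeneous m) : (em a b g).IsHomogeneous m := by
  have h := hg.aeval (g := ![a, b]) (n := 1) (by
    intro i
    fin_cases i
    · exact ha
    · exact hb)
  rw [one_mul] at h
  exact h

theorem hom_tsym {k m : ℕ} {g : B2} (hg : g.IsHomogeneous m) :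
    (tsym k g).IsHomogeneous (k + m) := by
  have h0 : (X 0 : R).IsHomogeneous 1 := isHomogeneous_X _ _
  have h1 : (X 1 : R).IsHomogeneous 1 := isHomogeneous_X _ _
  have h2 : (X 2 : R).IsHomogeneous 1 := isHomogeneous_X _ _
  have hp : ∀ a : R, a.IsHomogeneous 1 → (a ^ k).IsHomogeneous k := by
    intro a ha
    simpa using ha.pow k
  unfold tsym
  refine ((IsHomogeneous.add ?_ ?_).add ?_).add ?_
  · exact (hp _ h0).mul ((hom_em _ _ (h0.add h1) h2 hg).sub (hom_em _ _ h1 h2 hg))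
  · exact (hp _ h1).mul ((hom_em _ _ h0 (h1.add h2) hg).sub (hom_em _ _ (h0.add h1) h2 hg))
  · exact (hp _ h2).mul ((hom_em _ _ h0 h1 hg).sub (hom_em _ _ h0 (h1.add h2) hg))
  · exact (hp _ ((h0.add h1).add h2)).mul ((hom_em _ _ h1 h2 hg).sub (hom_em _ _ h0 h1 hg))

theorem tsym_zero (g : B2) : tsym 0 g = 0 := by
  unfold tsym
  ring

theorem sb_mon (a b : R) (s : Fin 3 →₀ ℕ) (c : ℚ) :
    sb (X 0) a b (monomial s c) = c • (X 0 ^ s 0 * (a ^ s 1 * b ^ s 2)) := by
  unfold sb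
  rw [aeval_monomial, Finsupp.prod_fintype _ _ (by intro i; simp), Fin.prod_univ_three,
    Algebra.smul_def]
  simp [mul_assoc]

theorem em_anti (i j : ℕ) : em (X 1) (X 2) (anti i j) =
    (X 1 : R) ^ i * X 2 ^ j - X 2 ^ i * X 1 ^ j - (X 1 + X 2) ^ i * (-X 2) ^ j +
    (-X 2) ^ i * (X 1 + X 2) ^ j + (-X 1 - X 2) ^ i * X 1 ^ j - X 1 ^ i * (-X 1 - X 2) ^ j +
    (-X 1) ^ i * (-X 2) ^ j - (-X 2) ^ i * (-X 1) ^ j - (-X 1 - X 2) ^ i * X 2 ^ j +
    X 2 ^ i * (-X 1 - X 2) ^ j + (X 1 + X 2) ^ i * (-X 1) ^ j - (-X 1) ^ i * (X 1 + X 2) ^ j := by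
  unfold anti em
  simp only [map_add, map_sub, map_mul, map_pow, map_neg, aeval_X, Matrix.cons_val_zero,
    Matrix.cons_val_one]

theorem hex_av {d : ℕ} (hd : Even d) (l : R →ₗ[ℚ] ℚ)
    (hl : ∀ k m : ℕ, ∀ g ∈ V2 m, Even k → Even m → 2 ≤ k → k + m = d → l (tsym k g) = 0) :
    Hex (av d l) := by
  refine ⟨fun Q => ?_, fun Q => ?_, fun Q => ?_, fun Q => ?_⟩
  · rw [s_n, av_neg hd]
  · rw [sb_S (X 1) (X 2) (-(X 0 + X 1 + X 2)) mc (by simp [mc]) (by simp [mc])
      (by simp [mc]; ring), av_cyc]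
  · rw [sb_S (-X 2) (-X 1) (-X 0) ms (by simp [ms]) (by simp [ms]) (by simp [ms]), av_rev]
  · -- linear in `Q`
    have key := lin_mon (V := ℚ) (av d l ∘ₗ (LinearMap.id - (sb (X 0) (X 2) (X 1)).toLinearMap
      - (sb (X 0) (X 1 + X 2) (-X 2)).toLinearMap + (sb (X 0) (-X 2) (X 1 + X 2)).toLinearMap
      + (sb (X 0) (-X 1 - X 2) (X 1)).toLinearMap - (sb (X 0) (X 1) (-X 1 - X 2)).toLinearMap
      + (sb (X 0) (-X 1) (-X 2)).toLinearMap - (sb (X 0) (-X 2) (-X 1)).toLinearMap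
      - (sb (X 0) (-X 1 - X 2) (X 2)).toLinearMap + (sb (X 0) (X 2) (-X 1 - X 2)).toLinearMap
      + (sb (X 0) (X 1 + X 2) (-X 1)).toLinearMap - (sb (X 0) (-X 1) (X 1 + X 2)).toLinearMap)) 0
      (by
        intro s c
        have e0 : (monomial s c : R) = c • (X 0 ^ s 0 * (X 1 ^ s 1 * X 2 ^ s 2)) := by
          rw [← sb_mon]
          have : sb (X 0) (X 1) (X 2) = AlgHom.id ℚ R := by
            apply algHom_ext
            intro i
            fin_cases i <;> simp [sb]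
          rw [this]
          rfl
        simp only [LinearMap.comp_apply, LinearMap.sub_apply, LinearMap.add_apply,
          AlgHom.toLinearMap_apply, LinearMap.id_apply, LinearMap.zero_apply, sb_mon]
        rw [e0]
        have e1 : c • (X 0 ^ s 0 * (X 1 ^ s 1 * X 2 ^ s 2) : R)
          - c • (X 0 ^ s 0 * (X 2 ^ s 1 * X 1 ^ s 2))
          - c • (X 0 ^ s 0 * ((X 1 + X 2) ^ s 1 * (-X 2) ^ s 2))
          + c • (X 0 ^ s 0 * ((-X 2) ^ s 1 * (X 1 + X 2) ^ s 2))
          + c • (X 0 ^ s 0 * ((-X 1 - X 2) ^ s 1 * X 1 ^ s 2))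
          - c • (X 0 ^ s 0 * (X 1 ^ s 1 * (-X 1 - X 2) ^ s 2))
          + c • (X 0 ^ s 0 * ((-X 1) ^ s 1 * (-X 2) ^ s 2))
          - c • (X 0 ^ s 0 * ((-X 2) ^ s 1 * (-X 1) ^ s 2))
          - c • (X 0 ^ s 0 * ((-X 1 - X 2) ^ s 1 * X 2 ^ s 2))
          + c • (X 0 ^ s 0 * (X 2 ^ s 1 * (-X 1 - X 2) ^ s 2))
          + c • (X 0 ^ s 0 * ((X 1 + X 2) ^ s 1 * (-X 1) ^ s 2))
          - c • (X 0 ^ s 0 * ((-X 1) ^ s 1 * (X 1 + X 2) ^ s 2))
          = c • (X 0 ^ s 0 * em (X 1) (X 2) (anti (s 1) (s 2))) := by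
          rw [em_anti]
          simp only [← smul_sub, ← smul_add]
          congr 1
          ring
        rw [e1, map_smul]
        have hg := anti_mem (s 1) (s 2)
        have hz : av d l (X 0 ^ s 0 * em (X 1) (X 2) (anti (s 1) (s 2))) = 0 := by
          have h0 : (X 0 ^ s 0 * em (X 1) (X 2) (anti (s 1) (s 2)) : R).IsHomogeneous
              (s 0 + (s 1 + s 2)) := by
            have := ((isHomogeneous_X ℚ (0 : Fin 3)).pow (s 0)).mul
              (hom_em (X 1) (X 2) (isHomogeneous_X _ _) (isHomogeneous_X _ _) hg.1)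
            simpa using this
          by_cases hde : d = s 0 + (s 1 + s 2)
          · rcases Nat.even_or_odd (s 0) with h1 | h1
            · rw [av_tsym l hg h1 hde.symm]
              have h2 : Even (s 1 + s 2) := by
                rw [hde, Nat.even_add] at hd
                exact hd.1 h1
              rw [hde, hc_hom (hom_tsym hg.1)]
              rcases Nat.lt_or_ge (s 0) 2 with h3 | h3
              · have h4 : s 0 = 0 := by
                  obtain ⟨r, hr⟩ := h1
                  omega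
                rw [h4, tsym_zero, map_zero, neg_zero]
              · rw [hl _ _ _ hg h1 h2 h3 hde.symm, neg_zero]
            · have h2 : Odd (s 1 + s 2) := by
                rw [← Nat.not_even_iff_odd] at h1 ⊢
                intro h3
                rw [hde, Nat.even_add] at hd
                exact h1 (hd.2 h3)
              rw [v2_odd hg h2, mul_zero, map_zero]
          · exact av_ne l h0 hde
        rw [hz, smul_zero]) Q
    simp only [LinearMap.comp_apply, LinearMap.sub_apply, LinearMap.add_apply,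
      AlgHom.toLinearMap_apply, LinearMap.id_apply, LinearMap.zero_apply, map_sub, map_add] at key
    exact key

/-- **the third layer is spanned by the symbols of brackets** -/
theorem t_V3Span (hDec : Dec) : V3Span := by
  intro d hd h1 q hq
  by_contra hcon
  obtain ⟨l, hl1, hl2⟩ := Submodule.exists_le_ker_of_notMem hcon
  have hl : ∀ k m : ℕ, ∀ g ∈ V2 m, Even k → Even m → 2 ≤ k → k + m = d → l (tsym k g) = 0 := by
    intro k m g hg hk hm h2 hkm
    exact hl2 (Submodule.subset_span ⟨k, m, g, hg, hk, hm, h2, hkm, rfl⟩)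
  have hA := hex_av hd l hl
  obtain ⟨m, hm⟩ := hDec d h1 hd _ hA
  obtain ⟨q1, q2, q3, q4, q5⟩ := hq
  have kc : S mc q = q := by
    rw [← sb_S (X 1) (X 2) (-(X 0 + X 1 + X 2)) mc (by simp [mc]) (by simp [mc])
      (by simp [mc]; ring)]
    exact q2
  have ks : S ms q = q := by
    rw [← sb_S (-X 2) (-X 1) (-X 0) ms (by simp [ms]) (by simp [ms]) (by simp [ms])]
    exact q3
  have k2 : S (mc * mc) q = q := by rw [← S_comp, kc, kc]
  have k3 : S (mc * mc * mc) q = q := by rw [← S_comp, k2, kc]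
  have k4 : S (mc * ms) q = q := by rw [← S_comp, kc, ks]
  have k5 : S (mc * mc * ms) q = q := by rw [← S_comp, k2, ks]
  have k6 : S (mc * mc * mc * ms) q = q := by rw [← S_comp, k3, ks]
  have hav : av d l q = 8 * l q := by
    rw [av_apply, S_one, kc, k2, k3, ks, k4, k5, k6]
    simp only [map_add, hc_hom q1]
    ring
  -- `m q = 0`
  have hmq : m q = 0 := by
    have a1 := (hm q q1).2.1
    have a2 := (hm (sb (X 0) (X 1 + X 2) (-X 2) q)
      (hom_sb _ _ _ (isHomogeneous_X _ _) ((isHomogeneous_X _ _).add (isHomogeneous_X _ _))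
        (isHomogeneous_X _ _).neg q1)).2.1
    have a3 := (hm q q1).2.2.1
    have a4 : sb (X 0 + X 1) (-X 1) (X 1 + X 2) (sb (X 0) (X 1 + X 2) (-X 2) q) =
        sb (X 0 + X 1) (X 2) (-(X 1 + X 2)) q := by
      rw [s_1, s_2, S_comp, sb_S (X 0 + X 1) (X 2) (-(X 1 + X 2)) (m2 * m1) _ _ _]
      all_goals rw [show m2 * m1 = !![1, 1, 0; 0, 0, 1; 0, -1, -1] from by decide]
      all_goals simp
      ring
    rw [a4, a3] at a2
    have a5 := congrArg m q4
    rw [map_add, map_add, a1, a2, map_zero] at a5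
    linarith
  -- `(m - α) q = 0`
  have hnq : m q - av d l q = 0 := by
    have hcm : ∀ Q : R, Q.IsHomogeneous d → m (S mc Q) - av d l (S mc Q) = m Q - av d l Q := by
      intro Q hQ
      have b1 : S mc Q = S m0 (S m1 (S m2 Q)) := by
        rw [S_comp, S_comp]
        congr 2
        decide
      have c1 := (hm (S m1 (S m2 Q)) (hom_S _ (hom_S _ hQ))).1
      have c2 := (hm (S m2 Q) (hom_S _ hQ)).2.1
      have c3 := (hm Q hQ).2.2.1
      rw [s_0] at c1
      rw [s_1] at c2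
      rw [s_2] at c3
      rw [av_cyc, b1, c1, c2, c3]
    have hr : ∀ Q : R, Q.IsHomogeneous d → m (S mR Q) - av d l (S mR Q) = m Q - av d l Q := by
      intro Q hQ
      have c1 := (hm Q hQ).2.2.2
      rw [s_R] at c1
      exact c1
    -- the transposition of `v₀`, `v₁`
    have h01 : ∀ Q : R, Q.IsHomogeneous d → m (S !![0, 1, 0; 1, 0, 0; 0, 0, 1] Q) -
        av d l (S !![0, 1, 0; 1, 0, 0; 0, 0, 1] Q) = m Q - av d l Q := by
      intro Q hQ
      have b1 : S !![0, 1, 0; 1, 0, 0; 0, 0, 1] Q = S mc (S mc (S mc (S mR (S mc Q)))) := by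
        rw [S_comp, S_comp, S_comp, S_comp]
        congr 2
        decide
      rw [b1, hcm _ (hom_S _ (hom_S _ (hom_S _ (hom_S _ hQ)))),
        hcm _ (hom_S _ (hom_S _ (hom_S _ hQ))), hcm _ (hom_S _ (hom_S _ hQ)), hr _ (hom_S _ hQ),
        hcm _ hQ]
    have d1 : sb (X 1) (X 0) (X 2) q = S !![0, 1, 0; 1, 0, 0; 0, 0, 1] q := by
      rw [sb_S (X 1) (X 0) (X 2) !![0, 1, 0; 1, 0, 0; 0, 0, 1] (by simp) (by simp) (by simp)]
    have d2 : sb (X 1) (X 2) (X 0) q = S !![0, 1, 0; 1, 0, 0; 0, 0, 1] (S mR q) ∨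
        sb (X 1) (X 2) (X 0) q = S mR (S !![0, 1, 0; 1, 0, 0; 0, 0, 1] q) := by
      rw [sb_S (X 1) (X 2) (X 0) !![0, 1, 0; 0, 0, 1; 1, 0, 0] (by simp) (by simp) (by simp),
        S_comp, S_comp]
      left
      congr 2
      decide
    have e2 : m (sb (X 1) (X 2) (X 0) q) - av d l (sb (X 1) (X 2) (X 0) q) = m q - av d l q := by
      rcases d2 with d2 | d2
      · rw [d2, h01 _ (hom_S _ q1), hr _ q1]
      · rw [d2, hr _ (hom_S _ q1), h01 _ q1]
    have e1 := h01 q q1
    rw [← d1] at e1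
    have f1 := congrArg m q5
    have f2 := congrArg (av d l) q5
    rw [map_add, map_add, map_zero] at f1 f2
    linarith
  rw [hmq, hav] at hnq
  apply hl1
  linarith

end Pool.Agent.K3h43.GEN
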