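import Pool.Agent.K3h43.DSL.All
import Pool.Agent.K3h43.GEN.V3c
import Pool.Agent.K3h36.GEN.GOne
import Pool.Agent.K3h36.GEN.GTwo
import Pool.Agent.K3h93.GEN.Bracket
import Pool.Agent.K3h91.GEN.G4

set_option autoImplicit false

namespace Pool.Agent.K3h43.GEN

open Pool.Agent.H777R4.DM Pool.Agent.R241.DL Pool.Agent.K3h43.DSL MvPolynomial

theorem mapF (hL : Layer3) (hE : Exp4) {N : ℕ} (hN : Odd N) (h3 : 3 ≤ N) (ψ : A) (hdm : IsDM ψ)
    (hlen : LenHom ψ N) (hm : ∀ u, co ψ u ≠ 0 → 3 ≤ u.count 0) :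
    FF N ψ ∈ V (N - 3) ∧ (FF N ψ = 0 → ∀ u, co ψ u ≠ 0 → 4 ≤ u.count 0) := by
  have hR := hL ψ N hN hdm hlen hm
  have T := eval_FF N ψ hE hlen
  have T' : ∀ x y z : ℚ, eval ![x, y, z] (FF N ψ) = ev [0, -x, -x - y, -x - y - z] ψ := by
    intro x y z
    rw [T]
    rfl
  refine ⟨⟨hom_FF N ψ hlen h3, ?_, ?_, ?_, ?_⟩, ?_⟩
  · apply MvPolynomial.funext
    intro v
    rw [eval_sb, T', T]
    have h1 : ev [0 + -v 0, -v 1 + -v 0, -v 1 - v 2 + -v 0, v 0 + -v 0] ψ =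
      ev [0, -v 1, -v 1 - v 2, v 0] ψ := hR.tr 0 (-v 1) (-v 1 - v 2) (v 0) (-v 0)
    have h2 : ev [-v 0, -v 0 - v 1, -v 0 - v 1 - v 2, 0] ψ =
      ev [0, -v 0, -v 0 - v 1, -v 0 - v 1 - v 2] ψ := hR.cyc 0 (-v 0) (-v 0 - v 1) (-v 0 - v 1 - v 2)
    simp only [map_neg, map_add, eval_X]
    rw [← h2]
    ring_nf at h1 ⊢
    exact h1.symm
  · apply MvPolynomial.funext
    intro v
    rw [eval_sb, T', T]
    have h1 : ev [0 + -(v 0 + v 1 + v 2), v 2 + -(v 0 + v 1 + v 2), v 2 + v 1 + -(v 0 + v 1 + v 2),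
      v 2 + v 1 + v 0 + -(v 0 + v 1 + v 2)] ψ = ev [0, v 2, v 2 + v 1, v 2 + v 1 + v 0] ψ :=
      hR.tr 0 (v 2) (v 2 + v 1) (v 2 + v 1 + v 0) (-(v 0 + v 1 + v 2))
    have h2 : ev [-v 0 - v 1 - v 2, -v 0 - v 1, -v 0, 0] ψ =
      ev [0, -v 0, -v 0 - v 1, -v 0 - v 1 - v 2] ψ := hR.rev 0 (-v 0) (-v 0 - v 1) (-v 0 - v 1 - v 2)
    simp only [map_neg, eval_X]
    rw [← h2]
    ring_nf at h1 ⊢
    exact h1.symm
  · apply MvPolynomial.funext
    intro v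
    rw [map_add, map_add, eval_sb, eval_sb, T', T', T, map_zero]
    have h1 : ev [0, -v 0, -v 0 - v 1, -v 0 - v 1 - v 2] ψ +
      ev [0, -v 0 - v 1, -v 0, -v 0 - v 1 - v 2] ψ +
      ev [0, -v 0 - v 1, -v 0 - v 1 - v 2, -v 0] ψ = 0 :=
      hR.ins 0 (-v 0) (-v 0 - v 1) (-v 0 - v 1 - v 2)
    simp only [map_neg, map_add, eval_X]
    refine Eq.trans ?_ h1
    ring_nf
  · apply MvPolynomial.funext
    intro v
    rw [map_add, map_add, eval_sb, eval_sb, T', T', T, map_zero]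
    have h1 : ev [v 0 + v 1 + v 2, v 1 + v 2, v 2, 0] ψ + ev [v 0 + v 1 + v 2, v 0 + v 2, v 2, 0] ψ +
      ev [v 0 + v 1 + v 2, v 0 + v 2, v 0, 0] ψ = 0 := hR.shu (v 0) (v 1) (v 2)
    have t : ∀ a b c d t : ℚ, ev [a + t, b + t, c + t, d + t] ψ = ev [a, b, c, d] ψ := hR.tr
    rw [← t (v 0 + v 1 + v 2) (v 1 + v 2) (v 2) 0 (-(v 0 + v 1 + v 2)),
      ← t (v 0 + v 1 + v 2) (v 0 + v 2) (v 2) 0 (-(v 0 + v 1 + v 2)),
      ← t (v 0 + v 1 + v 2) (v 0 + v 2) (v 0) 0 (-(v 0 + v 1 + v 2))] at h1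
    simp only [eval_X]
    refine Eq.trans ?_ h1
    ring_nf
  · intro h0 u hu
    have hz : ∀ x y z : ℚ, ev [0, x, y, z] ψ = 0 := by
      intro x y z
      have h1 := T' (-x) (x - y) (y - z)
      rw [h0, map_zero] at h1
      refine Eq.trans ?_ h1.symm
      ring_nf
    have hz' : ∀ z0 z1 z2 z3 : ℚ, ev [z0, z1, z2, z3] ψ = 0 := by
      intro z0 z1 z2 z3
      have h1 : ev [z0 + -z0, z1 + -z0, z2 + -z0, z3 + -z0] ψ = ev [z0, z1, z2, z3] ψ :=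
        hR.tr z0 z1 z2 z3 (-z0)
      rw [← h1, add_neg_cancel]
      exact hz _ _ _
    have E : ∀ z0 z1 z2 z3 : ℚ, ev [z0, z1, z2, z3] ψ = S4 (N + 1) (fun a b c d =>
      co ψ (blk [a, b, c, d]) * (z0 ^ a * z1 ^ b * z2 ^ c * z3 ^ d)) := hE ψ N hlen
    have h1 := uni4 (N + 1) (fun a b c d => co ψ (blk [a, b, c, d])) (by
      intro z0 z1 z2 z3
      rw [← E]
      exact hz' z0 z1 z2 z3)
    by_contra hcon
    have h4 : u.count 0 = 3 := by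
      have := hm u hu
      omega
    obtain ⟨a, l, k1, k2, k3⟩ := exists_blk u
    have hlu := hlen u hu
    rw [h4] at k1
    obtain ⟨b, l, rfl⟩ := List.exists_cons_of_length_eq_add_one (show l.length = 2 + 1 by simpa using k1)
    obtain ⟨c, l, rfl⟩ := List.exists_cons_of_length_eq_add_one (show l.length = 1 + 1 by simpa using k1)
    obtain ⟨d, l, rfl⟩ := List.exists_cons_of_length_eq_add_one (show l.length = 0 + 1 by simpa using k1)
    have : l = [] := List.length_eq_zero_iff.1 (by simpa using k1)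
    subst this
    apply hu
    rw [← k2]
    have b1 : ∀ x ∈ [a, b, c, d], x < N + 1 := fun x hx => by
      have := k3 x hx
      omega
    exact h1 a (b1 a (by simp)) b (b1 b (by simp)) c (b1 c (by simp)) d (b1 d (by simp))


end Pool.Agent.K3h43.GEN
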