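import Pool.Agent.K3h43.GEN.Stm

set_option autoImplicit false

namespace Pool.Agent.K3h43.GEN

open Pool.Agent.K3h43.DSL MvPolynomial

/-- integer matrices -/
abbrev M3 : Type := Matrix (Fin 3) (Fin 3) ℤ

/-- the substitution of a matrix -/
noncomputable def S (M : M3) : R →ₐ[ℚ] R := aeval fun i => ∑ j, ((M i j : ℤ) : R) * X j

theorem S_X (M : M3) (i : Fin 3) : S M (X i) = ∑ j, ((M i j : ℤ) : R) * X j := by
  unfold S
  rw [aeval_X]

theorem S_comp (M N : M3) (Q : R) : S M (S N Q) = S (N * M) Q := by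
  have h : (S M).comp (S N) = S (N * M) := by
    apply algHom_ext
    intro i
    rw [AlgHom.comp_apply, S_X, S_X, map_sum]
    simp only [map_mul, map_intCast, S_X, Matrix.mul_apply, Int.cast_sum, Int.cast_mul,
      Finset.mul_sum, Finset.sum_mul]
    rw [Finset.sum_comm]
    refine Finset.sum_congr rfl fun j _ => Finset.sum_congr rfl fun k _ => ?_
    ring
  exact DFunLike.congr_fun h Q

theorem S_one (Q : R) : S 1 Q = Q := by
  have h : S 1 = AlgHom.id ℚ R := by
    apply algHom_ext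
    intro i
    rw [S_X]
    simp [Matrix.one_apply]
  rw [h]
  rfl

theorem sb_S (a b c : R) (M : M3) (ha : a = (M 0 0 : R) * X 0 + (M 0 1 : R) * X 1 + (M 0 2 : R) * X 2)
    (hb : b = (M 1 0 : R) * X 0 + (M 1 1 : R) * X 1 + (M 1 2 : R) * X 2)
    (hc : c = (M 2 0 : R) * X 0 + (M 2 1 : R) * X 1 + (M 2 2 : R) * X 2) : sb a b c = S M := by
  apply algHom_ext
  intro i
  rw [S_X, Fin.sum_univ_three]
  unfold sb
  rw [aeval_X]
  fin_cases i
  · simpa using ha
  · simpa using hb
  · simpa using hc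

end Pool.Agent.K3h43.GEN
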