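import Pool.Agent.K3h43.DSL.Stm

/-! MP_ec2393_nt: generation of `dm` by brackets of elements of depth one, modulo elements with many
letters `x₀`. Definitions and the statements of the bricks. -/

set_option autoImplicit false

namespace Pool.Agent.K3h43.GEN

open Pool.Agent.H777R4.DM Pool.Agent.R241.DL Pool.Agent.K3h43.DSL MvPolynomial

/-- binary polynomials -/
abbrev B2 : Type := MvPolynomial (Fin 2) ℚ

/-- substitution in binary polynomials -/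
noncomputable def bb (a b : B2) : B2 →ₐ[ℚ] B2 := aeval ![a, b]

/-- substitution of ternary polynomials in binary ones -/
noncomputable def em (a b : R) : B2 →ₐ[ℚ] R := aeval ![a, b]

/-- the second layer: antisymmetric under the dihedral group of order twelve -/
def V2 (m : ℕ) : Submodule ℚ B2 where
  carrier := {g | g.IsHomogeneous m ∧ bb (X 1) (X 0) g = -g ∧ bb (X 0 + X 1) (-X 1) g = -g}
  add_mem' := by
    rintro p q ⟨h1, h2, h3⟩ ⟨k1, k2, k3⟩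
    exact ⟨h1.add k1, by rw [map_add, h2, k2]; ring, by rw [map_add, h3, k3]; ring⟩
  zero_mem' := ⟨isHomogeneous_zero _ _ _, by simp, by simp⟩
  smul_mem' := by
    rintro c p ⟨h1, h2, h3⟩
    refine ⟨(homogeneousSubmodule (Fin 2) ℚ m).smul_mem c h1, ?_, ?_⟩
    · rw [map_smul, h2, smul_neg]
    · rw [map_smul, h3, smul_neg]

/-- the symbol of the bracket of two elements with one letter `x₀` -/
noncomputable def bsym (p q : ℕ) : B2 :=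
  X 0 ^ p * ((X 0 + X 1) ^ q - X 1 ^ q) + X 1 ^ p * (X 0 ^ q - (X 0 + X 1) ^ q) +
    (X 0 + X 1) ^ p * (X 1 ^ q - X 0 ^ q)

/-- the symbol of the bracket of an element with one letter `x₀` and an element with two -/
noncomputable def tsym (k : ℕ) (g : B2) : R :=
  X 0 ^ k * (em (X 0 + X 1) (X 2) g - em (X 1) (X 2) g) +
    X 1 ^ k * (em (X 0) (X 1 + X 2) g - em (X 0 + X 1) (X 2) g) +
    X 2 ^ k * (em (X 0) (X 1) g - em (X 0) (X 1 + X 2) g) +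
    (X 0 + X 1 + X 2) ^ k * (em (X 1) (X 2) g - em (X 0) (X 1) g)

/-! ### G1: elementary facts on `v₀ ↦ v₀ + v₁` -/

/-- brick G1a -/
def Surj01 : Prop := ∀ P : R, ∃ Q : R, sb (X 0 + X 1) (X 1) (X 2) Q - Q = X 1 * P

/-- brick G1b -/
def Ker01 : Prop := ∀ Q : R, sb (X 0 + X 1) (X 1) (X 2) Q = Q → sb 0 (X 1) (X 2) Q = Q

/-- brick G1c -/
def Div01 : Prop := ∀ Q : R, ∃ P : R, sb (X 0 + X 1) (X 1) (X 2) Q - Q = X 1 * P

/-- brick G1d -/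
def Div12 : Prop := ∀ P Q : R, X 1 * P = X 2 * Q → ∃ T : R, P = X 2 * T

/-! ### G2: the second layer -/

/-- brick G2 -/
def V2Span : Prop := ∀ m : ℕ, Even m → 1 ≤ m → ∀ g ∈ V2 m,
  g ∈ Submodule.span ℚ {b : B2 | ∃ p q : ℕ, Even p ∧ Even q ∧ 2 ≤ p ∧ 2 ≤ q ∧ p + q = m ∧
    b = bsym p q}

/-! ### G3: symbols of Ihara brackets -/

/-- brick G3a -/
def Ih11 : Prop := ∀ f g : A, (∀ u, co f u ≠ 0 → 1 ≤ u.count 0) → (∀ u, co g u ≠ 0 → 1 ≤ u.count 0) →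
  ∀ z0 z1 z2 : ℚ, ev [z0, z1, z2] (ihara f g) =
    ev [z0, z1] f * (ev [z0, z2] g - ev [z1, z2] g) +
    ev [z1, z2] f * (ev [z0, z1] g - ev [z0, z2] g) +
    ev [z0, z2] f * (ev [z1, z2] g - ev [z0, z1] g)

/-- brick G3b -/
def Ih12 : Prop := ∀ f g : A, (∀ u, co f u ≠ 0 → 1 ≤ u.count 0) → (∀ u, co g u ≠ 0 → 2 ≤ u.count 0) →
  ∀ z0 z1 z2 z3 : ℚ, ev [z0, z1, z2, z3] (ihara f g) =
    ev [z0, z1] f * (ev [z0, z2, z3] g - ev [z1, z2, z3] g) +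
    ev [z1, z2] f * (ev [z0, z1, z3] g - ev [z0, z2, z3] g) +
    ev [z2, z3] f * (ev [z0, z1, z2] g - ev [z0, z1, z3] g) +
    ev [z0, z3] f * (ev [z1, z2, z3] g - ev [z0, z1, z2] g)

/-- brick G3c -/
def IhCount : Prop := ∀ (f g : A) (a b : ℕ), (∀ u, co f u ≠ 0 → a ≤ u.count 0) →
  (∀ u, co g u ≠ 0 → b ≤ u.count 0) → ∀ u, co (ihara f g) u ≠ 0 → a + b ≤ u.count 0

/-- brick G3d -/
def IhLen : Prop := ∀ (f g : A) (a b : ℕ), LenHom f a → LenHom g b → LenHom (ihara f g) (a + b)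

/-! ### G4: the symbol of an element of depth one, coefficients in even weight -/

/-- brick G4a -/
def SymOne : Prop := ∀ (σ : A) (k : ℕ), Even k → 2 ≤ k → IsDM σ → LenHom σ (k + 1) →
  co σ (List.replicate k 0 ++ [1]) ≠ 0 →
  (∀ u, co σ u ≠ 0 → 1 ≤ u.count 0) ∧
  ∃ c : ℚ, c ≠ 0 ∧ ∀ z0 z1 : ℚ, ev [z0, z1] σ = c * (z0 - z1) ^ k

/-- brick G4b -/
def EvenCoeff : Prop := ∀ (τ : A) (p q : ℕ) (c : ℚ), Even p → Even q → LenHom τ (p + q + 2) →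
  (∀ z0 z1 z2 : ℚ, ev [z0, z1, z2] τ = c * eval ![z0 - z1, z1 - z2] (bsym p q)) →
  ∀ i j : ℕ, Odd j → i + j = p + q →
    co τ (0 :: (List.replicate i 1 ++ 0 :: List.replicate j 1)) =
      -c * ((p.choose j : ℚ) - (q.choose j : ℚ) + (q.choose i : ℚ) - (p.choose i : ℚ))

/-! ### G5: functionals -/

/-- The functionals that kill the brackets: `α` is invariant under the dihedral group and satisfies
the hexagon relation. -/
structure Hex (α : R →ₗ[ℚ] ℚ) : Prop where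
  neg : ∀ Q, α (sb (-X 0) (-X 1) (-X 2) Q) = α Q
  cyc : ∀ Q, α (sb (X 1) (X 2) (-(X 0 + X 1 + X 2)) Q) = α Q
  rev : ∀ Q, α (sb (-X 2) (-X 1) (-X 0) Q) = α Q
  hex : ∀ Q, α Q - α (sb (X 0) (X 2) (X 1) Q)
    - α (sb (X 0) (X 1 + X 2) (-X 2) Q) + α (sb (X 0) (-X 2) (X 1 + X 2) Q)
    + α (sb (X 0) (-X 1 - X 2) (X 1) Q) - α (sb (X 0) (X 1) (-X 1 - X 2) Q)
    + α (sb (X 0) (-X 1) (-X 2) Q) - α (sb (X 0) (-X 2) (-X 1) Q)
    - α (sb (X 0) (-X 1 - X 2) (X 2) Q) + α (sb (X 0) (X 2) (-X 1 - X 2) Q)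
    + α (sb (X 0) (X 1 + X 2) (-X 1) Q) - α (sb (X 0) (-X 1) (X 1 + X 2) Q) = 0

/-- brick G5: the decomposition of a functional -/
def Dec : Prop := ∀ (d : ℕ), 1 ≤ d → Even d → ∀ α : R →ₗ[ℚ] ℚ, Hex α → ∃ m : R →ₗ[ℚ] ℚ,
  ∀ Q : R, Q.IsHomogeneous d →
    m (sb (-X 0) (X 0 + X 1) (X 2) Q) = m Q ∧
    m (sb (X 0 + X 1) (-X 1) (X 1 + X 2) Q) = m Q ∧
    m (sb (X 0) (X 1 + X 2) (-X 2) Q) = m Q ∧
    m (sb (X 0) (X 2) (X 1) Q) - α (sb (X 0) (X 2) (X 1) Q) = m Q - α Q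

/-- brick G6: the third layer -/
def V3Span : Prop := ∀ d : ℕ, Even d → 1 ≤ d → ∀ q ∈ V d,
  q ∈ Submodule.span ℚ {t : R | ∃ k m : ℕ, ∃ g ∈ V2 m, Even k ∧ Even m ∧ 2 ≤ k ∧ k + m = d ∧
    t = tsym k g}

end Pool.Agent.K3h43.GEN
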