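import Pool.Agent.K3h43.GEN.Del

set_option autoImplicit false

namespace Pool.Agent.K3h43.GEN

open Pool.Agent.K3h43.DSL MvPolynomial

theorem em_bb (a b : R) (x y g : B2) : em a b (bb x y g) = em (em a b x) (em a b y) g := by
  have h : (em a b).comp (bb x y) = em (em a b x) (em a b y) := by
    apply algHom_ext
    intro i
    fin_cases i <;> simp [em, bb]
  exact DFunLike.congr_fun h g

theorem sb_em (a b c x y : R) (g : B2) : sb a b c (em x y g) = em (sb a b c x) (sb a b c y) g := by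
  have h : (sb a b c).comp (em x y) = em (sb a b c x) (sb a b c y) := by
    apply algHom_ext
    intro i
    fin_cases i <;> simp [em]
  exact DFunLike.congr_fun h g

theorem S_em (M : M3) (x y : R) (g : B2) : S M (em x y g) = em (S M x) (S M y) g := by
  have h : (S M).comp (em x y) = em (S M x) (S M y) := by
    apply algHom_ext
    intro i
    fin_cases i <;> simp [em]
  exact DFunLike.congr_fun h g

section
variable {m : ℕ} {g : B2}

theorem v2_s (hg : g ∈ V2 m) (a b : R) : em b a g = -em a b g := by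
  have h := congrArg (em a b) hg.2.1
  rw [em_bb, map_neg] at h
  simpa [em] using h

theorem v2_r (hg : g ∈ V2 m) (a b : R) : em (a + b) (-b) g = -em a b g := by
  have h := congrArg (em a b) hg.2.2
  rw [em_bb, map_neg] at h
  simpa [em] using h

theorem v2_rot (hg : g ∈ V2 m) (a b : R) : em (-b) (a + b) g = em a b g := by
  rw [v2_s hg, v2_r hg, neg_neg]

theorem v2_neg (hg : g ∈ V2 m) (a b : R) : em (-a) (-b) g = em a b g := by
  have h1 := v2_rot hg a b
  have h2 := v2_rot hg (-b) (a + b)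
  have h3 := v2_rot hg (-(a + b)) (-b + (a + b))
  rw [show -(-b + (a + b)) = -a by ring, show -(a + b) + (-b + (a + b)) = -b by ring] at h3
  rw [h3, h2, h1]

theorem v2_cyc (hg : g ∈ V2 m) (a b : R) : em b (-(a + b)) g = em a b g := by
  rw [← v2_neg hg, neg_neg, v2_rot hg]

theorem v2_cyc2 (hg : g ∈ V2 m) (a b : R) : em (-(a + b)) a g = em a b g := by
  rw [← v2_cyc hg, show -(-(a + b) + a) = b by ring]

theorem em_neg_hom (hg : g.IsHomogeneous m) (a b : R) : em (-a) (-b) g = (-1) ^ m * em a b g := by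
  have h1 : ∀ s : Fin 2 →₀ ℕ, s.degree = m → ∀ c : ℚ,
      em (-a) (-b) (monomial s c) = (-1) ^ m * em a b (monomial s c) := by
    intro s hs c
    have hs' : s 0 + s 1 = m := by
      rw [← hs, Finsupp.degree_eq_sum, Fin.sum_univ_two]
    unfold em
    rw [aeval_monomial, aeval_monomial, Finsupp.prod_fintype _ _ (by intro i; simp),
      Finsupp.prod_fintype _ _ (by intro i; simp), Fin.prod_univ_two, Fin.prod_univ_two]
    simp only [Matrix.cons_val_zero, Matrix.cons_val_one]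
    rw [neg_pow a, neg_pow b, ← hs', pow_add]
    ring
  rw [g.as_sum]
  simp only [map_sum, Finset.mul_sum]
  refine Finset.sum_congr rfl fun s hs => h1 s ?_ _
  rw [mem_support_iff] at hs
  have h3 := hg hs
  have h2 : s.degree = Finsupp.weight (1 : Fin 2 → ℕ) s :=
    DFunLike.congr_fun (Finsupp.degree_eq_weight_one (σ := Fin 2) (R := ℕ)) s
  rw [h2]
  exact h3

theorem v2_odd (hg : g ∈ V2 m) (hm : Odd m) (a b : R) : em a b g = 0 := by
  have h1 := v2_neg hg a b
  rw [em_neg_hom hg.1, hm.neg_one_pow] at h1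
  have h2 : (2 : R) * em a b g = 0 := by linear_combination -h1
  have h3 : (2 : R) ≠ 0 := two_ne_zero
  exact (mul_eq_zero.1 h2).resolve_left h3

/-- the sum over the dihedral group -/
theorem sum8 (hg : g ∈ V2 m) {k : ℕ} (hk : Even k) :
    X 0 ^ k * em (X 1) (X 2) g + X 1 ^ k * em (X 2) (-(X 0 + X 1 + X 2)) g +
    X 2 ^ k * em (-(X 0 + X 1 + X 2)) (X 0) g + (-(X 0 + X 1 + X 2)) ^ k * em (X 0) (X 1) g +
    (-X 2) ^ k * em (-X 1) (-X 0) g + (-X 1) ^ k * em (-X 0) (X 0 + X 1 + X 2) g +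
    (-X 0) ^ k * em (X 0 + X 1 + X 2) (-X 2) g + (X 0 + X 1 + X 2) ^ k * em (-X 2) (-X 1) g =
    -tsym k g := by
  have e2 : em (X 2) (-(X 0 + X 1 + X 2)) g = em (X 0 + X 1) (X 2) g := v2_cyc hg _ _
  have e3 : em (-(X 0 + X 1 + X 2)) (X 0) g = em (X 0) (X 1 + X 2) g := by
    have := v2_cyc2 hg (X 0) (X 1 + X 2)
    rwa [← add_assoc] at this
  have e5 : em (-X 1) (-X 0) g = -em (X 0) (X 1) g := by rw [v2_neg hg, v2_s hg]
  have e6 : em (-X 0) (X 0 + X 1 + X 2) g = -em (X 0) (X 1 + X 2) g := by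
    rw [v2_s hg, ← e3, ← v2_neg hg (-(X 0 + X 1 + X 2)) (X 0), neg_neg]
  have e7 : em (X 0 + X 1 + X 2) (-X 2) g = -em (X 0 + X 1) (X 2) g := v2_r hg _ _
  have e8 : em (-X 2) (-X 1) g = -em (X 1) (X 2) g := by rw [v2_neg hg, v2_s hg]
  rw [e2, e3, e5, e6, e7, e8, hk.neg_pow, hk.neg_pow, hk.neg_pow, hk.neg_pow]
  unfold tsym
  ring

end

/-- the antisymmetrisation of a monomial -/
noncomputable def anti (i j : ℕ) : B2 :=
  X 0 ^ i * X 1 ^ j - X 1 ^ i * X 0 ^ j - (X 0 + X 1) ^ i * (-X 1) ^ j +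
    (-X 1) ^ i * (X 0 + X 1) ^ j + (-X 0 - X 1) ^ i * X 0 ^ j - X 0 ^ i * (-X 0 - X 1) ^ j +
    (-X 0) ^ i * (-X 1) ^ j - (-X 1) ^ i * (-X 0) ^ j - (-X 0 - X 1) ^ i * X 1 ^ j +
    X 1 ^ i * (-X 0 - X 1) ^ j + (X 0 + X 1) ^ i * (-X 0) ^ j - (-X 0) ^ i * (X 0 + X 1) ^ j

theorem anti_mem (i j : ℕ) : anti i j ∈ V2 (i + j) := by
  have hx : (X 0 : B2).IsHomogeneous 1 := isHomogeneous_X _ _
  have hy : (X 1 : B2).IsHomogeneous 1 := isHomogeneous_X _ _
  have hh : ∀ a b : B2, a.IsHomogeneous 1 → b.IsHomogeneous 1 → (a ^ i * b ^ j).IsHomogeneous (i + j) := by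
    intro a b ha hb
    simpa using (ha.pow i).mul (hb.pow j)
  refine ⟨?_, ?_, ?_⟩
  · unfold anti
    refine ((((((((((IsHomogeneous.sub (hh _ _ hx hy) (hh _ _ hy hx)).sub (hh _ _ (hx.add hy) hy.neg)).add
      (hh _ _ hy.neg (hx.add hy))).add (hh _ _ (hx.neg.sub hy) hx)).sub (hh _ _ hx (hx.neg.sub hy))).add
      (hh _ _ hx.neg hy.neg)).sub (hh _ _ hy.neg hx.neg)).sub (hh _ _ (hx.neg.sub hy) hy)).add
      (hh _ _ hy (hx.neg.sub hy))).add (hh _ _ (hx.add hy) hx.neg)).sub (hh _ _ hx.neg (hx.add hy))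
  · unfold anti bb
    simp only [map_add, map_sub, map_mul, map_pow, map_neg, aeval_X, Matrix.cons_val_zero,
      Matrix.cons_val_one]
    ring
  · unfold anti bb
    simp only [map_add, map_sub, map_mul, map_pow, map_neg, aeval_X, Matrix.cons_val_zero,
      Matrix.cons_val_one]
    have e1 : (X 0 + X 1 + -X 1 : B2) = X 0 := by ring
    have e2 : (-(X 0 + X 1) - -X 1 : B2) = -X 0 := by ring
    rw [e1, e2, neg_neg]
    ring

end Pool.Agent.K3h43.GEN
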