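import Pool.Agent.K3h43.GEN.V3

set_option autoImplicit false

namespace Pool.Agent.K3h43.GEN

open Pool.Agent.K3h43.DSL MvPolynomial

/-- the homogeneous component of degree `d` -/
noncomputable def hc (d : ℕ) : R →ₗ[ℚ] R := homogeneousComponent d

theorem hc_hom {d : ℕ} {Q : R} (h : Q.IsHomogeneous d) : hc d Q = Q := by
  have := homogeneousComponent_of_mem (n := d) (m := d) h
  rw [if_pos rfl] at this
  exact this

theorem hc_ne {d e : ℕ} {Q : R} (h : Q.IsHomogeneous e) (hne : d ≠ e) : hc d Q = 0 := by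
  have := homogeneousComponent_of_mem (n := e) (m := d) h
  rw [if_neg hne] at this
  exact this

theorem hom_mon (s : Fin 3 →₀ ℕ) (c : ℚ) : (monomial s c : R).IsHomogeneous (s 0 + s 1 + s 2) := by
  apply isHomogeneous_monomial
  rw [Finsupp.degree_eq_sum, Fin.sum_univ_three]

/-- polynomials are sums of monomials -/
theorem lin_mon {V : Type} [AddCommGroup V] [Module ℚ V] (f g : R →ₗ[ℚ] V)
    (h : ∀ (s : Fin 3 →₀ ℕ) (c : ℚ), f (monomial s c) = g (monomial s c)) (Q : R) : f Q = g Q := by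
  rw [Q.as_sum, map_sum, map_sum]
  exact Finset.sum_congr rfl fun s _ => h s _

theorem hom_S {d : ℕ} (M : M3) {Q : R} (hQ : Q.IsHomogeneous d) : (S M Q).IsHomogeneous d := by
  have h := hQ.aeval (g := fun i => ∑ j, ((M i j : ℤ) : R) * X j) (n := 1) (by
    intro i
    refine IsHomogeneous.sum _ _ _ fun j _ => ?_
    have h1 : ((M i j : ℤ) : R) = C ((M i j : ℤ) : ℚ) := by simp
    rw [h1]
    have := (isHomogeneous_C (Fin 3) ((M i j : ℤ) : ℚ)).mul (isHomogeneous_X ℚ j)
    simpa using this)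
  rw [one_mul] at h
  exact h

def mn : M3 := !![-1, 0, 0; 0, -1, 0; 0, 0, -1]
def mc : M3 := !![0, 1, 0; 0, 0, 1; -1, -1, -1]
def ms : M3 := !![0, 0, -1; 0, -1, 0; -1, 0, 0]

theorem s_n : sb (-X 0) (-X 1) (-X 2) = S mn :=
  sb_S _ _ _ _ (by simp [mn]) (by simp [mn]) (by simp [mn])

theorem S_neg_mon (s : Fin 3 →₀ ℕ) (c : ℚ) :
    S mn (monomial s c) = ((-1 : ℚ) ^ (s 0 + s 1 + s 2)) • (monomial s c : R) := by
  have e : (monomial s c : R) = C c * (X 0 ^ s 0 * X 1 ^ s 1 * X 2 ^ s 2) := by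
    rw [monomial_eq, Finsupp.prod_fintype _ _ (by intro i; simp), Fin.prod_univ_three]
  have hC : sb (-X 0) (-X 1) (-X 2) (C c) = C c := by
    unfold sb
    rw [aeval_C]
    rfl
  have h0 : sb (-X 0) (-X 1) (-X 2) (X 0) = -X 0 := by simp [sb]
  have h1 : sb (-X 0) (-X 1) (-X 2) (X 1) = -X 1 := by simp [sb]
  have h2 : sb (-X 0) (-X 1) (-X 2) (X 2) = -X 2 := by simp [sb]
  rw [← s_n, e, map_mul, map_mul, map_mul, map_pow, map_pow, map_pow, hC, h0, h1, h2,
    neg_pow (X 0 : R), neg_pow (X 1 : R), neg_pow (X 2 : R), pow_add, pow_add, smul_eq_C_mul]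
  simp only [map_mul, map_pow, map_neg, map_one]
  ring

theorem hc_neg {d : ℕ} (hd : Even d) (Q : R) : hc d (S mn Q) = hc d Q := by
  refine lin_mon (hc d ∘ₗ (S mn).toLinearMap) (hc d) (fun s c => ?_) Q
  show hc d (S mn (monomial s c)) = _
  rw [S_neg_mon, LinearMap.map_smul]
  by_cases h : d = s 0 + s 1 + s 2
  · rw [← h, hd.neg_one_pow, one_smul]
  · rw [hc_ne (hom_mon s c) h, smul_zero]

/-- the average over the dihedral group -/
noncomputable def av (d : ℕ) (l : R →ₗ[ℚ] ℚ) : R →ₗ[ℚ] ℚ :=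
  (l ∘ₗ hc d) ∘ₗ ((S 1).toLinearMap + (S mc).toLinearMap + (S (mc * mc)).toLinearMap +
    (S (mc * mc * mc)).toLinearMap + (S ms).toLinearMap + (S (mc * ms)).toLinearMap +
    (S (mc * mc * ms)).toLinearMap + (S (mc * mc * mc * ms)).toLinearMap)

theorem av_apply (d : ℕ) (l : R →ₗ[ℚ] ℚ) (Q : R) : av d l Q =
    l (hc d (S 1 Q + S mc Q + S (mc * mc) Q + S (mc * mc * mc) Q + S ms Q + S (mc * ms) Q +
      S (mc * mc * ms) Q + S (mc * mc * mc * ms) Q)) := rfl

theorem S_congr {M N : M3} (h : M = N) (Q : R) : S M Q = S N Q := by rw [h]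

theorem av_cyc (d : ℕ) (l : R →ₗ[ℚ] ℚ) (Q : R) : av d l (S mc Q) = av d l Q := by
  rw [av_apply, av_apply]
  refine congrArg (fun x => l (hc d x)) ?_
  simp only [S_comp]
  rw [S_congr (show mc * 1 = mc from by decide), S_congr (show mc * (mc * mc) = mc * mc * mc from by decide),
    S_congr (show mc * (mc * mc * mc) = 1 from by decide),
    S_congr (show mc * (mc * ms) = mc * mc * ms from by decide),
    S_congr (show mc * (mc * mc * ms) = mc * mc * mc * ms from by decide),
    S_congr (show mc * (mc * mc * mc * ms) = ms from by decide)]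
  ring

theorem av_rev (d : ℕ) (l : R →ₗ[ℚ] ℚ) (Q : R) : av d l (S ms Q) = av d l Q := by
  rw [av_apply, av_apply]
  refine congrArg (fun x => l (hc d x)) ?_
  simp only [S_comp]
  rw [S_congr (show ms * 1 = ms from by decide),
    S_congr (show ms * mc = mc * mc * mc * ms from by decide),
    S_congr (show ms * (mc * mc) = mc * mc * ms from by decide),
    S_congr (show ms * (mc * mc * mc) = mc * ms from by decide),
    S_congr (show ms * ms = 1 from by decide),
    S_congr (show ms * (mc * ms) = mc * mc * mc from by decide),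
    S_congr (show ms * (mc * mc * ms) = mc * mc from by decide),
    S_congr (show ms * (mc * mc * mc * ms) = mc from by decide)]
  ring

theorem av_neg {d : ℕ} (hd : Even d) (l : R →ₗ[ℚ] ℚ) (Q : R) : av d l (S mn Q) = av d l Q := by
  rw [av_apply, av_apply, ← hc_neg hd]
  refine congrArg (fun x => l (hc d x)) ?_
  simp only [map_add, S_comp]
  rw [S_congr (show mn * 1 * mn = 1 from by decide),
    S_congr (show mn * mc * mn = mc from by decide),
    S_congr (show mn * (mc * mc) * mn = mc * mc from by decide),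
    S_congr (show mn * (mc * mc * mc) * mn = mc * mc * mc from by decide),
    S_congr (show mn * ms * mn = ms from by decide),
    S_congr (show mn * (mc * ms) * mn = mc * ms from by decide),
    S_congr (show mn * (mc * mc * ms) * mn = mc * mc * ms from by decide),
    S_congr (show mn * (mc * mc * mc * ms) * mn = mc * mc * mc * ms from by decide)]

theorem av_ne {d e : ℕ} (l : R →ₗ[ℚ] ℚ) {Q : R} (h : Q.IsHomogeneous e) (hne : d ≠ e) :
    av d l Q = 0 := by
  rw [av_apply, hc_ne _ hne, map_zero]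
  exact (((((((hom_S _ h).add (hom_S _ h)).add (hom_S _ h)).add (hom_S _ h)).add
    (hom_S _ h)).add (hom_S _ h)).add (hom_S _ h)).add (hom_S _ h)

/-- the value of the average at `v₀^k g(v₁, v₂)` -/
theorem av_tsym {d k m : ℕ} (l : R →ₗ[ℚ] ℚ) {g : B2} (hg : g ∈ V2 m) (hk : Even k) (hd : k + m = d) :
    av d l (X 0 ^ k * em (X 1) (X 2) g) = -l (hc d (tsym k g)) := by
  rw [av_apply, ← map_neg, ← map_neg, ← sum8 hg hk]
  refine congrArg (fun x => l (hc d x)) ?_
  simp only [map_mul, map_pow, S_em, S_X, Fin.sum_univ_three]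
  have t1 : (1 : M3) = !![1, 0, 0; 0, 1, 0; 0, 0, 1] := by decide
  have t2 : mc * mc = !![0, 0, 1; -1, -1, -1; 1, 0, 0] := by decide
  have t3 : mc * mc * mc = !![-1, -1, -1; 1, 0, 0; 0, 1, 0] := by decide
  have t4 : mc * ms = !![0, -1, 0; -1, 0, 0; 1, 1, 1] := by decide
  have t5 : mc * mc * ms = !![-1, 0, 0; 1, 1, 1; 0, 0, -1] := by decide
  have t6 : mc * mc * mc * ms = !![1, 1, 1; 0, 0, -1; 0, -1, 0] := by decide
  rw [t1, t6, t5, t4, t3, t2]
  simp only [mc, ms]
  simp
  ring_nf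

end Pool.Agent.K3h43.GEN
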